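import Mathlib

/-!
# K5T.Defs: transfer from blocks to all graphs, definitions

`sq w = √(1 - w)`; `T3 h a0 a2 a3`: `h` is analytic at `0`, `h(Z) = a0 + a2 Z^2 + a3 Z^3 + O(Z^4)`; `Ext ρ f z`: `f` on the open disc of radius `ρ` continues analytically at `z`.
`Data`: the series `β(u) = ∑ b n u^n` (derivative of the generating function of the blocks) with `β(u) = h(√(1 - u / x0))` near `x0`, and the series `R(z) = ∑ r n z^n` with `R = z exp(β(R))`.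
-/

namespace K5T

open Filter Topology Metric Asymptotics

/-- `√(1 - w)`. -/
noncomputable def sq (w : ℂ) : ℂ := (1 - w) ^ (1 / 2 : ℂ)

/-- `h` is analytic at `0` and `h(Z) = a0 + a2 Z^2 + a3 Z^3 + O(Z^4)`. -/
structure T3 (h : ℂ → ℂ) (a0 a2 a3 : ℂ) : Prop where
  an : AnalyticAt ℂ h 0
  exp : (fun Z => h Z - (a0 + a2 * Z ^ 2 + a3 * Z ^ 3)) =O[𝓝 0] (fun Z => Z ^ 4)

/-- `f`, given on the open disc of radius `ρ`, has an analytic continuation at `z`. -/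
def Ext (ρ : ℝ) (f : ℂ → ℂ) (z : ℂ) : Prop :=
  ∃ g : ℂ → ℂ, AnalyticAt ℂ g z ∧ ∀ᶠ w in 𝓝[ball 0 ρ] z, f w = g w

/-- The function of a real sequence on `ℂ`. -/
noncomputable def fn (a : ℕ → ℝ) (z : ℂ) : ℂ := ∑' n : ℕ, (a n : ℂ) * z ^ n

/-- The function of a real sequence on `ℝ`. -/
noncomputable def fr (a : ℕ → ℝ) (x : ℝ) : ℝ := ∑' n : ℕ, a n * x ^ n

/-- The data of the transfer theorem. -/
structure Data where
  b : ℕ → ℝ
  r : ℕ → ℝ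
  x0 : ℝ
  rho : ℝ
  h : ℂ → ℂ
  a0 : ℝ
  a2 : ℝ
  a3 : ℝ
  b_nonneg : ∀ n, 0 ≤ b n
  b_zero : b 0 = 0
  x0_pos : 0 < x0
  b_sum : Summable (fun n : ℕ => b n * x0 ^ n)
  rho_eq : rho = x0 * Real.exp (-fr b x0)
  loc : ∀ᶠ u in 𝓝[ball (0 : ℂ) x0] (x0 : ℂ), fn b u = h (sq (u / x0))
  t3 : T3 h a0 a2 a3
  kap : 0 < 1 + a2
  r_nonneg : ∀ n, 0 ≤ r n
  r_zero : r 0 = 0
  r_one : 0 < r 1
  r_two : 0 < r 2
  r_sum : Summable (fun n : ℕ => r n * rho ^ n)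
  r_le : fr r rho ≤ x0
  r_eq : ∀ z : ℝ, 0 ≤ z → z ≤ rho → fr r z = z * Real.exp (fr b (fr r z))

theorem Data.rho_pos (S : Data) : 0 < S.rho := by
  rw [S.rho_eq]
  exact mul_pos S.x0_pos (Real.exp_pos _)

end K5T
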