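import Pool.Agent.Lib.K5T.Defs

/-!
# K5T.Inv: local inverse and square root

1. `local_inv`: the inverse function theorem: `AnalyticAt.hasStrictDerivAt`, `HasStrictDerivAt.localInverse` (or `HasStrictFDerivAt.toOpenPartialHomeomorph`); the local inverse is differentiable at all points near `f a` (`deriv f ≠ 0` near `a`), so analytic
   (`DifferentiableOn.analyticAt` on an open neighbourhood); Mathlib also has results for analytic inverses (`Mathlib/Analysis/Analytic/Inverse.lean`, `OpenPartialHomeomorph.analyticAt_symm`).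
2. `root`: `E` is analytic at `0`, `E(U) = κ U^2 + c U^3 + O(U^4)`, `κ > 0`. Then `E(0) = 0`, `E'(0) = 0` and `E(U) = U^2 q(U)` near `0` with `q` analytic, `q(0) = κ` (two applications of `dslope`, or power series). Let `s(U) := U * q(U)^(1/2)` (principal power, analytic near `0` since `q(0) = κ`
   is in the slit plane), `s(U)^2 = E(U)` near `0`, `s'(0) = √κ ≠ 0`, `g` := the local inverse of `s` (1), `g(0) = 0`, `g'(0) = 1/√κ`.
   (i) Let `Z^2 = E(U)`, `0 < Z.re`, `|U.im| < U.re`, `U` near `0`. Then `Z = s(U)` or `Z = -s(U)`. `s(U) = U (√κ + ε(U))`, `ε(U) → 0`, so `(s(U)).re ≥ √κ U.re - |ε| |U| ≥ (√κ - 2 |ε|) U.re > 0` (`|U| ≤ 2 U.re`); so `Z = -s(U)` is impossible and `U = g(s(U)) = g(Z)`.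
   (ii) `E(g(Z)) = s(g(Z))^2 = Z^2` near `0`, `g(Z) = Z/√κ + O(Z^2)`, so `g = O(Z)`, `g^3 = Z^3 / κ^(3/2) + O(Z^4)`, and `κ g^2 = Z^2 - c g^3 + O(g^4)`, hence `g^2 = Z^2/κ - c Z^3/κ^(5/2) + O(Z^4)`.
-/

namespace K5T

open Filter Topology Metric Asymptotics

theorem local_inv {f : ℂ → ℂ} {a : ℂ} (hf : AnalyticAt ℂ f a) (h : deriv f a ≠ 0) :
    ∃ g : ℂ → ℂ, AnalyticAt ℂ g (f a) ∧ g (f a) = a ∧ deriv g (f a) = (deriv f a)⁻¹ ∧
      (∀ᶠ u in 𝓝 a, g (f u) = u) ∧ ∀ᶠ z in 𝓝 (f a), f (g z) = z := by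
  refine ⟨hf.hasStrictDerivAt.localInverse _ _ _ h, hf.analyticAt_localInverse h,
    HasStrictFDerivAt.localInverse_apply_image .., ?_, ?_, ?_⟩
  · exact (HasStrictDerivAt.to_localInverse hf.hasStrictDerivAt h).hasDerivAt.deriv
  · exact HasStrictDerivAt.eventually_left_inverse hf.hasStrictDerivAt h
  · exact HasStrictDerivAt.eventually_right_inverse hf.hasStrictDerivAt h

namespace InvAux

theorem fac {F : ℂ → ℂ} {n : ℕ} (hF : AnalyticAt ℂ F 0) (h : F =O[𝓝 0] (fun U => U ^ n)) :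
    ∃ r : ℂ → ℂ, AnalyticAt ℂ r 0 ∧ ∀ᶠ U in 𝓝 (0 : ℂ), F U = U ^ n * r U := by
  have key : (n : ℕ∞) ≤ analyticOrderAt F 0 := by
    by_contra hlt
    rw [not_le] at hlt
    obtain ⟨m, hm⟩ := ENat.ne_top_iff_exists.mp hlt.ne_top
    rw [← hm] at hlt
    have hmn : m < n := by exact_mod_cast hlt
    obtain ⟨g, hg, hg0, hgF⟩ := hF.analyticOrderAt_eq_natCast.mp hm.symm
    obtain ⟨k, rfl⟩ : ∃ k, n = m + (k + 1) := ⟨n - m - 1, by omega⟩
    obtain ⟨C, hC⟩ := h.bound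
    have h1 : ∀ᶠ U in 𝓝[≠] (0 : ℂ), ‖g U‖ ≤ C * ‖U‖ ^ (k + 1) := by
      have h2 := (hC.and hgF).filter_mono (nhdsWithin_le_nhds (s := {(0 : ℂ)}ᶜ))
      filter_upwards [h2, self_mem_nhdsWithin] with U hU hU0
      obtain ⟨h3, h4⟩ := hU
      rw [h4, sub_zero, smul_eq_mul, norm_mul, norm_pow, norm_pow, pow_add] at h3
      have hpos : 0 < ‖U‖ ^ m := by
        have : 0 < ‖U‖ := norm_pos_iff.mpr hU0
        positivity
      have h5 : ‖U‖ ^ m * ‖g U‖ ≤ ‖U‖ ^ m * (C * ‖U‖ ^ (k + 1)) := by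
        refine h3.trans (le_of_eq ?_)
        ring
      exact le_of_mul_le_mul_left h5 hpos
    have h2 : Tendsto (fun U : ℂ => C * ‖U‖ ^ (k + 1)) (𝓝[≠] 0) (𝓝 0) := by
      have h3 : Tendsto (fun U : ℂ => C * ‖U‖ ^ (k + 1)) (𝓝 0) (𝓝 (C * ‖(0 : ℂ)‖ ^ (k + 1))) := by
        have : Continuous (fun U : ℂ => C * ‖U‖ ^ (k + 1)) := by fun_prop
        exact this.tendsto 0
      rw [norm_zero, zero_pow (by omega), mul_zero] at h3
      exact h3.mono_left nhdsWithin_le_nhds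
    have h3 : Tendsto g (𝓝[≠] 0) (𝓝 0) := by
      rw [tendsto_zero_iff_norm_tendsto_zero]
      exact tendsto_of_tendsto_of_tendsto_of_le_of_le' tendsto_const_nhds h2
        (Eventually.of_forall fun U => norm_nonneg _) h1
    have h4 : Tendsto g (𝓝[≠] 0) (𝓝 (g 0)) := hg.continuousAt.tendsto.mono_left nhdsWithin_le_nhds
    exact hg0 (tendsto_nhds_unique h4 h3)
  obtain ⟨r, hr, h1⟩ := (natCast_le_analyticOrderAt hF).mp key
  refine ⟨r, hr, ?_⟩
  filter_upwards [h1] with U hU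
  rw [hU, sub_zero, smul_eq_mul]

theorem bigO_of_zero {F : ℂ → ℂ} (hF : AnalyticAt ℂ F 0) (h0 : F 0 = 0) : F =O[𝓝 0] (fun U => U) := by
  have h := hF.differentiableAt.isBigO_sub
  simpa [h0] using h

end InvAux

open InvAux

theorem root {E : ℂ → ℂ} {κ c : ℝ} (hE : AnalyticAt ℂ E 0) (hκ : 0 < κ)
    (hx : (fun U => E U - (κ * U ^ 2 + c * U ^ 3)) =O[𝓝 0] (fun U => U ^ 4)) :
    ∃ g : ℂ → ℂ, AnalyticAt ℂ g 0 ∧ g 0 = 0 ∧
      (∀ᶠ U in 𝓝 (0 : ℂ), ∀ Z : ℂ, Z ^ 2 = E U → 0 < Z.re → |U.im| < U.re → U = g Z) ∧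
      (fun Z => g Z ^ 2 - (Z ^ 2 / κ - (c / κ ^ (5 / 2 : ℝ) : ℝ) * Z ^ 3)) =O[𝓝 0]
        (fun Z => Z ^ 4) := by
  have hFa : AnalyticAt ℂ (fun U => E U - (κ * U ^ 2 + c * U ^ 3)) 0 := by fun_prop
  obtain ⟨r, hr, hrE⟩ := fac hFa hx
  have hE2 : ∀ᶠ U in 𝓝 (0 : ℂ), E U = U ^ 2 * (κ + c * U + U ^ 2 * r U) := by
    filter_upwards [hrE] with U hU
    have : E U = U ^ 4 * r U + (κ * U ^ 2 + c * U ^ 3) := by rw [← hU]; ring
    rw [this]
    ring
  set σ : ℝ := Real.sqrt κ with hσ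
  have hσ0 : 0 < σ := Real.sqrt_pos.mpr hκ
  have hσ2 : σ ^ 2 = κ := Real.sq_sqrt hκ.le
  set q : ℂ → ℂ := fun U => κ + c * U + U ^ 2 * r U with hq
  have hqa : AnalyticAt ℂ q 0 := by fun_prop
  have hq0 : q 0 = (κ : ℂ) := by simp [hq]
  set pp : ℂ → ℂ := fun U => q U ^ (((2 : ℕ) : ℂ)⁻¹) with hpp
  have hppa : AnalyticAt ℂ pp 0 := by
    refine hqa.cpow analyticAt_const ?_
    rw [hq0]
    exact Complex.ofReal_mem_slitPlane.mpr hκ
  have hpp2 : ∀ U, pp U ^ 2 = q U := fun U => Complex.cpow_nat_inv_pow (q U) (by norm_num)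
  have hpp0 : pp 0 = (σ : ℂ) := by
    have h1 : pp 0 = ((κ ^ ((2 : ℝ)⁻¹) : ℝ) : ℂ) := by
      rw [Complex.ofReal_cpow hκ.le]
      simp [hpp, hq0]
    rw [h1, hσ, Real.sqrt_eq_rpow]
    norm_num
  set s : ℂ → ℂ := fun U => U * pp U with hs
  have hsa : AnalyticAt ℂ s 0 := by fun_prop
  have hs0 : s 0 = 0 := by simp [hs]
  have hds : deriv s 0 = (σ : ℂ) := by
    have h1 : HasDerivAt s (1 * pp 0 + 0 * deriv pp 0) 0 :=
      (hasDerivAt_id (0 : ℂ)).mul hppa.differentiableAt.hasDerivAt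
    rw [h1.deriv, hpp0]
    ring
  have hσC : (σ : ℂ) ≠ 0 := by exact_mod_cast hσ0.ne'
  have hκC : (κ : ℂ) ≠ 0 := by exact_mod_cast hκ.ne'
  obtain ⟨g, hga, hg0, hdg, hgs, hsg⟩ := local_inv hsa (by rw [hds]; exact hσC)
  rw [hs0] at hga hg0 hdg hsg
  rw [hds] at hdg
  refine ⟨g, hga, hg0, ?_, ?_⟩
  · have hcon : ∀ᶠ U in 𝓝 (0 : ℂ), |(pp U).im| < (pp U).re := by
      have h1 : ContinuousAt (fun U => |(pp U).im|) 0 :=
        (Complex.continuous_im.continuousAt.comp hppa.continuousAt).abs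
      have h2 : ContinuousAt (fun U => (pp U).re) 0 :=
        Complex.continuous_re.continuousAt.comp hppa.continuousAt
      refine h1.eventually_lt h2 ?_
      rw [hpp0]
      simpa using hσ0
    filter_upwards [hcon, hgs, hE2] with U h1 h2 h3 Z hZ hZre hU
    have h4 : Z ^ 2 = (s U) ^ 2 := by
      rw [hZ, h3, hs]
      simp only
      rw [mul_pow, hpp2]
    have h5 : 0 < (s U).re := by
      rw [hs]
      simp only [Complex.mul_re]
      have hUre : 0 < U.re := lt_of_le_of_lt (abs_nonneg _) hU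
      have h6 : U.im * (pp U).im ≤ |U.im| * |(pp U).im| := by
        rw [← abs_mul]
        exact le_abs_self _
      have h7 : |U.im| * |(pp U).im| ≤ U.re * |(pp U).im| :=
        mul_le_mul_of_nonneg_right hU.le (abs_nonneg _)
      have h8 : U.re * |(pp U).im| < U.re * (pp U).re := mul_lt_mul_of_pos_left h1 hUre
      linarith
    rcases sq_eq_sq_iff_eq_or_eq_neg.mp h4 with h6 | h6
    · rw [h6, h2]
    · exfalso
      rw [h6, Complex.neg_re] at hZre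
      linarith
  · obtain ⟨k, hk, hkg⟩ := fac (n := 1) hga (by simpa using bigO_of_zero hga hg0)
    have hk0 : k 0 = (σ : ℂ)⁻¹ := by
      rw [← hdg]
      have h1 : HasDerivAt (fun Z => Z ^ 1 * k Z) (k 0) 0 := by
        have h2 : HasDerivAt (fun Z => Z * k Z) (1 * k 0 + 0 * deriv k 0) 0 :=
          (hasDerivAt_id (0 : ℂ)).mul hk.differentiableAt.hasDerivAt
        simpa using h2
      have h2 : HasDerivAt g (k 0) 0 := h1.congr_of_eventuallyEq hkg
      exact h2.deriv.symm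
    have hgt : Tendsto g (𝓝 0) (𝓝 0) := by
      have := hga.continuousAt.tendsto
      rwa [hg0] at this
    have hra : AnalyticAt ℂ (fun Z => r (g Z)) 0 := by
      have h1 : AnalyticAt ℂ r (g 0) := by rw [hg0]; exact hr
      exact h1.comp hga
    set m : ℂ → ℂ := fun Z => -((c : ℂ) / κ) * (k Z ^ 3 - ((σ : ℂ)⁻¹) ^ 3) - 1 / κ * (Z * k Z ^ 4 * r (g Z)) with hm
    have hma : AnalyticAt ℂ m 0 := by
      have h1 : AnalyticAt ℂ (fun Z => -((c : ℂ) / κ) * (k Z ^ 3 - ((σ : ℂ)⁻¹) ^ 3)) 0 := by fun_prop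
      have h2 : AnalyticAt ℂ (fun Z => 1 / (κ : ℂ) * (Z * k Z ^ 4 * r (g Z))) 0 :=
        analyticAt_const.mul ((analyticAt_id.mul (hk.pow 4)).mul hra)
      exact h1.sub h2
    have hm0 : m 0 = 0 := by simp [hm, hk0]
    have hmO := bigO_of_zero hma hm0
    have hmain : ∀ᶠ Z in 𝓝 (0 : ℂ), g Z ^ 2 - (Z ^ 2 / κ - (c / κ ^ (5 / 2 : ℝ) : ℝ) * Z ^ 3) = Z ^ 3 * m Z := by
      filter_upwards [hkg, hsg, hgt.eventually hE2] with Z h1 h2 h3
      have h4 : E (g Z) = Z ^ 2 := by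
        rw [h3]
        have h5 : (s (g Z)) ^ 2 = Z ^ 2 := by rw [h2]
        rw [hs] at h5
        simp only at h5
        rw [mul_pow, hpp2] at h5
        exact h5
      rw [h4] at h3
      have h5 : κ ^ (5 / 2 : ℝ) = κ * σ ^ 3 := by
        have h6 : κ ^ (5 / 2 : ℝ) = σ ^ 5 := by
          rw [hσ, Real.sqrt_eq_rpow, ← Real.rpow_natCast, ← Real.rpow_mul hκ.le]
          norm_num
        rw [h6, ← hσ2]
        ring
      rw [h5]
      rw [pow_one] at h1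
      have h6 : (κ : ℂ) * g Z ^ 2 = Z ^ 2 - c * g Z ^ 3 - g Z ^ 4 * r (g Z) := by
        rw [h3]
        ring
      have h7 : g Z ^ 2 = (Z ^ 2 - c * g Z ^ 3 - g Z ^ 4 * r (g Z)) / κ := by
        rw [← h6]
        field_simp
      rw [h7, hm]
      simp only
      rw [h1]
      push_cast
      field_simp
      ring
    have h8 : (fun Z : ℂ => Z ^ 3 * m Z) =O[𝓝 0] (fun Z => Z ^ 4) := by
      have h9 := (isBigO_refl (fun Z : ℂ => Z ^ 3) (𝓝 0)).mul hmO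
      refine h9.congr_right (fun Z => ?_)
      ring
    exact (h8.congr' (hmain.mono fun Z h => h.symm) EventuallyEq.rfl)

end K5T
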