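import Pool.Agent.Lib.K5T.Id
import Pool.Agent.Lib.K5T.Inv

/-!
# K5T.Circ: `R` on the circle of convergence

Let `‖z‖ = rho`, `z ≠ rho`, `u0 := R z`; `‖u0‖ < x0` (`norm_R_lt`). `ψ(u) := u * exp (-β(u))` is analytic at `u0` (`analyticAt_fn`), `ψ(u0) = z` (`fun_eq`), `ψ'(u0) = exp(-β(u0)) (1 - u0 β'(u0)) ≠ 0` since `‖u0 β'(u0)‖ ≤ ∑ n b n ‖u0‖^n < 1`
(`deriv_le`, `crit`). Let `g` be the local inverse (`local_inv`), analytic at `ψ(u0) = z`, `g (ψ u) = u` for `u` near `u0`. For `w ∈ ball 0 rho` near `z`: `R w` is near `u0` (`continuousOn_fn` on the closed ball), `ψ (R w) = w` (`fun_eq`), so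
`R w = g w`.
-/

namespace K5T

open Filter Topology Metric Asymptotics

namespace Data

variable (S : Data)

theorem ext_R {z : ℂ} (hz : ‖z‖ = S.rho) (hne : z ≠ S.rho) : Ext S.rho (fn S.r) z := by
  have hu : ‖fn S.r z‖ < S.x0 := S.norm_R_lt hz.le hne
  have hb : AnalyticAt ℂ (fn S.b) (fn S.r z) := analyticAt_fn S.b_nonneg S.b_sum hu
  have hinv : ∀ w : ℂ, ‖w‖ ≤ S.rho →
      fn S.r w * Complex.exp (-(fn S.b (fn S.r w))) = w := by
    intro w hw
    have h1 := S.fun_eq hw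
    have h2 : fn S.r w * Complex.exp (-(fn S.b (fn S.r w))) =
        (w * Complex.exp (fn S.b (fn S.r w))) * Complex.exp (-(fn S.b (fn S.r w))) := by
      rw [← h1]
    rw [h2, mul_assoc, ← Complex.exp_add, add_neg_cancel, Complex.exp_zero, mul_one]
  have hψa : AnalyticAt ℂ (fun u : ℂ => u * Complex.exp (-(fn S.b u))) (fn S.r z) :=
    analyticAt_id.mul hb.neg.cexp
  have hd : HasDerivAt (fun u : ℂ => u * Complex.exp (-(fn S.b u)))
      (1 * Complex.exp (-(fn S.b (fn S.r z))) + (fn S.r z) *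
        (Complex.exp (-(fn S.b (fn S.r z))) * (-(deriv (fn S.b) (fn S.r z))))) (fn S.r z) :=
    (hasDerivAt_id (fn S.r z)).mul hb.differentiableAt.hasDerivAt.neg.cexp
  have hsmall : ‖fn S.r z * deriv (fn S.b) (fn S.r z)‖ < 1 :=
    lt_of_le_of_lt (deriv_le S.b_nonneg S.b_sum hu) (S.crit (norm_nonneg _) hu)
  have hd0 : deriv (fun u : ℂ => u * Complex.exp (-(fn S.b u))) (fn S.r z) ≠ 0 := by
    rw [hd.deriv]
    have h1 : (1 * Complex.exp (-(fn S.b (fn S.r z))) + (fn S.r z) *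
        (Complex.exp (-(fn S.b (fn S.r z))) * (-(deriv (fn S.b) (fn S.r z))))) =
        Complex.exp (-(fn S.b (fn S.r z))) * (1 - fn S.r z * deriv (fn S.b) (fn S.r z)) := by
      ring
    rw [h1]
    refine mul_ne_zero (Complex.exp_ne_zero _) (fun h => ?_)
    rw [← sub_eq_zero.1 h, norm_one] at hsmall
    exact lt_irrefl _ hsmall
  obtain ⟨g, hga, -, -, hgu, -⟩ := local_inv hψa hd0
  rw [hinv z hz.le] at hga
  refine ⟨g, hga, ?_⟩
  have hzc : z ∈ closedBall (0 : ℂ) S.rho := by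
    rw [mem_closedBall_zero_iff]
    exact hz.le
  have hcont : Tendsto (fn S.r) (𝓝[ball 0 S.rho] z) (𝓝 (fn S.r z)) :=
    ((continuousOn_fn S.r_nonneg S.r_sum) z hzc).mono_left
      (nhdsWithin_mono z ball_subset_closedBall)
  filter_upwards [hcont.eventually hgu, self_mem_nhdsWithin] with w hw hwb
  rw [mem_ball_zero_iff] at hwb
  have h1 := hinv w hwb.le
  rw [h1] at hw
  exact hw.symm

end Data

end K5T
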