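import Pool.Agent.Lib.K5T.Defs

/-!
# K5T.ExpS: the coefficients of the exponential of a series with coefficients `~ K n^(-α)`

`(n + 1) g (n + 1) = ∑_{k ≤ n} (k + 1) a (k + 1) g (n - k)`, `g 0 = 1`, `a n ≥ 0`, `a n * n^α → K`, `α > 2`. Then `g n * n^α → K * ∑' g`, `g` is summable.
0. `g n ≥ 0` by induction. Let `b k := k * a k`; `b k ≤ C k^(1-α)` for `k ≥ 1`, `∑ b k < ∞` (`α > 2`), `b k * k^(α-1) → K`.
1. `ExpSAux.split`: if `g j ≤ V` for `n/2 ≤ j < n` then `n g n ≤ (∑ b) V + C (n/2)^(1-α) ∑_{j<n} g j`.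
   First `g` is bounded, then `g n = O(n^(1-α))` (so `g` is summable), then `g n = O(n^(-α))`, both by `ExpSAux.boot`.
2. The limit: the part `2 j ≥ n` of `n^(α-1) ∑_j b (n - j) g j` is `O(1/n)`; the other part converges by dominated convergence.
-/

namespace K5T

open Filter Topology Asymptotics Finset

namespace ExpSAux

/-- `(n / 2)^(-p) = 2^p n^(-p)`. -/
theorem half_rpow {x : ℝ} (hx : 0 ≤ x) (p : ℝ) : (x / 2) ^ (-p) = 2 ^ p * x ^ (-p) := by
  rw [Real.div_rpow hx (by norm_num), Real.rpow_neg (by norm_num : (0 : ℝ) ≤ 2) p, div_inv_eq_mul,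
    mul_comm]

/-- A bootstrapping lemma. -/
theorem boot {u : ℕ → ℝ} {s D p : ℝ} (hD : 0 ≤ D) (hp : 0 ≤ p)
    (h : ∀ n : ℕ, 1 ≤ n → ∀ V : ℝ, 0 ≤ V → (∀ j : ℕ, n ≤ 2 * j → j < n → u j ≤ V) →
      u n ≤ s * V / n + D * (n : ℝ) ^ (-p)) :
    ∃ M : ℝ, 0 ≤ M ∧ ∀ n : ℕ, 1 ≤ n → u n ≤ M * (n : ℝ) ^ (-p) := by
  obtain ⟨n0, hn0⟩ := exists_nat_ge (2 * s * 2 ^ p)
  obtain ⟨M, hMdef⟩ : ∃ M : ℝ, M = 2 * D + ∑ j ∈ range (n0 + 1), |u j| * (j : ℝ) ^ p := ⟨_, rfl⟩
  have hS : 0 ≤ ∑ j ∈ range (n0 + 1), |u j| * (j : ℝ) ^ p :=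
    Finset.sum_nonneg fun j _ => by positivity
  have hM : 0 ≤ M := by
    rw [hMdef]
    positivity
  refine ⟨M, hM, ?_⟩
  intro n
  induction n using Nat.strong_induction_on with
  | _ n ih =>
    intro hn
    have hnpos : (0 : ℝ) < n := by exact_mod_cast hn
    by_cases hle : n ≤ n0
    · have h1 : |u n| * (n : ℝ) ^ p ≤ M := by
        have h2 := Finset.single_le_sum (f := fun j : ℕ => |u j| * (j : ℝ) ^ p)
          (fun j _ => by positivity) (Finset.mem_range.mpr (Nat.lt_succ_of_le hle))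
        rw [hMdef]
        linarith
      rw [Real.rpow_neg hnpos.le, ← div_eq_mul_inv, le_div_iff₀ (by positivity)]
      exact (mul_le_mul_of_nonneg_right (le_abs_self _) (by positivity)).trans h1
    · have hlt : (n0 : ℝ) < n := by
        have : n0 < n := by omega
        exact_mod_cast this
      have hV : ∀ j : ℕ, n ≤ 2 * j → j < n → u j ≤ M * (2 ^ p * (n : ℝ) ^ (-p)) := by
        intro j hj1 hj2
        refine (ih j hj2 (by omega)).trans ?_
        have h2 : (n : ℝ) / 2 ≤ j := by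
          have : (n : ℝ) ≤ 2 * j := by exact_mod_cast hj1
          linarith
        have h3 : (j : ℝ) ^ (-p) ≤ 2 ^ p * (n : ℝ) ^ (-p) := by
          rw [← half_rpow hnpos.le]
          exact Real.rpow_le_rpow_of_nonpos (by positivity) h2 (by linarith)
        gcongr
      refine (h n hn _ (by positivity) hV).trans ?_
      have h3 : s * 2 ^ p / n ≤ 1 / 2 := by
        rw [div_le_iff₀ hnpos]
        linarith
      have h4 : 2 * D ≤ M := by
        rw [hMdef]
        linarith
      calc s * (M * (2 ^ p * (n : ℝ) ^ (-p))) / n + D * (n : ℝ) ^ (-p)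
          = ((s * 2 ^ p / n) * M + D) * (n : ℝ) ^ (-p) := by ring
        _ ≤ (1 / 2 * M + D) * (n : ℝ) ^ (-p) := by gcongr
        _ ≤ M * (n : ℝ) ^ (-p) := by
            gcongr
            linarith

section

variable {b g : ℕ → ℝ} {α C : ℝ}

/-- The recursion as a sum over `j`. -/
theorem rec_sum (hrec : ∀ n : ℕ, ((n : ℝ) + 1) * g (n + 1) =
    ∑ k ∈ range (n + 1), b (k + 1) * g (n - k)) {n : ℕ} (hn : 1 ≤ n) :
    (n : ℝ) * g n = ∑ j ∈ range n, b (n - j) * g j := by
  obtain ⟨m, rfl⟩ : ∃ m, n = m + 1 := ⟨n - 1, by omega⟩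
  have h1 := hrec m
  rw [Nat.cast_add, Nat.cast_one, h1, ← Finset.sum_range_reflect]
  refine Finset.sum_congr rfl fun j hj => ?_
  have hj' := Finset.mem_range.mp hj
  have e1 : m + 1 - 1 - j + 1 = m + 1 - j := by omega
  have e2 : m - (m + 1 - 1 - j) = j := by omega
  rw [e1, e2]

theorem split (hα : 2 < α) (hC : 0 ≤ C) (hb : ∀ k, 0 ≤ b k)
    (hbC : ∀ k : ℕ, 1 ≤ k → b k ≤ C * (k : ℝ) ^ (-(α - 1))) (hs : Summable b) (hg : ∀ n, 0 ≤ g n)
    (hrec : ∀ n : ℕ, ((n : ℝ) + 1) * g (n + 1) = ∑ k ∈ range (n + 1), b (k + 1) * g (n - k))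
    {n : ℕ} (hn : 1 ≤ n) {V : ℝ} (hV : 0 ≤ V) (h : ∀ j : ℕ, n ≤ 2 * j → j < n → g j ≤ V) :
    (n : ℝ) * g n ≤ (∑' k, b k) * V +
      C * (2 ^ (α - 1) * (n : ℝ) ^ (-(α - 1))) * ∑ j ∈ range n, g j := by
  have hnpos : (0 : ℝ) < n := by exact_mod_cast hn
  rw [rec_sum hrec hn]
  have h1 : ∀ j ∈ range n, b (n - j) * g j ≤
      b (n - j) * V + C * (2 ^ (α - 1) * (n : ℝ) ^ (-(α - 1))) * g j := by
    intro j hj
    have hj' := Finset.mem_range.mp hj
    have hg0 := hg j
    have hb0 := hb (n - j)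
    by_cases hj2 : n ≤ 2 * j
    · have h2 := mul_le_mul_of_nonneg_left (h j hj2 hj') hb0
      have h3 : 0 ≤ C * (2 ^ (α - 1) * (n : ℝ) ^ (-(α - 1))) * g j := by positivity
      linarith
    · have h2 : b (n - j) ≤ C * (2 ^ (α - 1) * (n : ℝ) ^ (-(α - 1))) := by
        refine (hbC (n - j) (by omega)).trans ?_
        rw [← half_rpow hnpos.le]
        refine mul_le_mul_of_nonneg_left ?_ hC
        refine Real.rpow_le_rpow_of_nonpos (by positivity) ?_ (by linarith)
        rw [Nat.cast_sub hj'.le]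
        have : (2 * j : ℝ) < n := by
          have : 2 * j < n := by omega
          exact_mod_cast this
        linarith
      have h3 := mul_le_mul_of_nonneg_right h2 hg0
      have h4 : 0 ≤ b (n - j) * V := by positivity
      linarith
  refine (Finset.sum_le_sum h1).trans ?_
  rw [Finset.sum_add_distrib, ← Finset.sum_mul, ← Finset.mul_sum]
  have h2 : ∑ j ∈ range n, b (n - j) ≤ ∑' k, b k := by
    have h3 : ∑ j ∈ range n, b (n - j) = ∑ j ∈ (range n).image (fun j => n - j), b j := by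
      rw [Finset.sum_image]
      intro i hi j hj hij
      have hi' := Finset.mem_range.mp hi
      have hj' := Finset.mem_range.mp hj
      simp only at hij
      omega
    rw [h3]
    exact hs.sum_le_tsum _ (fun k _ => hb k)
  have h3 := mul_le_mul_of_nonneg_right h2 hV
  linarith

theorem bdd (hb : ∀ k, 0 ≤ b k) (hs : Summable b) (hg : ∀ n, 0 ≤ g n)
    (hrec : ∀ n : ℕ, ((n : ℝ) + 1) * g (n + 1) = ∑ k ∈ range (n + 1), b (k + 1) * g (n - k)) :
    ∃ M : ℝ, 0 ≤ M ∧ ∀ n, g n ≤ M := by
  obtain ⟨n0, hn0⟩ := exists_nat_ge (∑' k, b k)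
  refine ⟨∑ j ∈ range (n0 + 1), g j, Finset.sum_nonneg fun j _ => hg j, ?_⟩
  intro n
  induction n using Nat.strong_induction_on with
  | _ n ih =>
    by_cases hle : n ≤ n0
    · exact Finset.single_le_sum (fun j _ => hg j) (Finset.mem_range.mpr (Nat.lt_succ_of_le hle))
    · have hn : 1 ≤ n := by omega
      have hnpos : (0 : ℝ) < n := by exact_mod_cast hn
      have hlt : (n0 : ℝ) < n := by
        have : n0 < n := by omega
        exact_mod_cast this
      obtain ⟨M, hM⟩ : ∃ M : ℝ, M = ∑ j ∈ range (n0 + 1), g j := ⟨_, rfl⟩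
      have hM0 : 0 ≤ M := by
        rw [hM]
        exact Finset.sum_nonneg fun j _ => hg j
      rw [← hM] at ih ⊢
      have h1 : (n : ℝ) * g n ≤ n * M := by
        rw [rec_sum hrec hn]
        calc ∑ j ∈ range n, b (n - j) * g j ≤ ∑ j ∈ range n, b (n - j) * M :=
              Finset.sum_le_sum fun j hj =>
                mul_le_mul_of_nonneg_left (ih j (Finset.mem_range.mp hj)) (hb _)
          _ = (∑ j ∈ range n, b (n - j)) * M := by rw [Finset.sum_mul]
          _ ≤ (∑' k, b k) * M := by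
              refine mul_le_mul_of_nonneg_right ?_ hM0
              have h3 : ∑ j ∈ range n, b (n - j) = ∑ j ∈ (range n).image (fun j => n - j), b j := by
                rw [Finset.sum_image]
                intro i hi j hj hij
                have hi' := Finset.mem_range.mp hi
                have hj' := Finset.mem_range.mp hj
                simp only at hij
                omega
              rw [h3]
              exact hs.sum_le_tsum _ (fun k _ => hb k)
          _ ≤ n * M := by
              refine mul_le_mul_of_nonneg_right ?_ hM0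
              linarith
      exact le_of_mul_le_mul_left h1 hnpos

theorem summable_rpow {p M : ℝ} (hp : 1 < p) (hg : ∀ n, 0 ≤ g n)
    (h : ∀ n : ℕ, 1 ≤ n → g n ≤ M * (n : ℝ) ^ (-p)) : Summable g := by
  rw [← summable_nat_add_iff 1]
  have h1 : Summable (fun n : ℕ => M * ((n : ℝ) ^ (-p))) :=
    (Real.summable_nat_rpow.mpr (by linarith)).mul_left M
  have h2 := (summable_nat_add_iff 1).mpr h1
  refine Summable.of_nonneg_of_le (fun n => hg _) (fun n => ?_) h2
  exact h (n + 1) (by omega)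

end

end ExpSAux

open ExpSAux

theorem exp_seq {a g : ℕ → ℝ} {α K : ℝ} (hα : 2 < α) (ha : ∀ n, 0 ≤ a n)
    (hK : Tendsto (fun n : ℕ => a n * (n : ℝ) ^ α) atTop (𝓝 K)) (g0 : g 0 = 1)
    (hrec : ∀ n : ℕ, ((n : ℝ) + 1) * g (n + 1) =
      ∑ k ∈ range (n + 1), ((k : ℝ) + 1) * a (k + 1) * g (n - k)) :
    Summable g ∧ (∀ n, 0 ≤ g n) ∧
      Tendsto (fun n : ℕ => g n * (n : ℝ) ^ α) atTop (𝓝 (K * ∑' n, g n)) := by
  -- the sequence `b`
  obtain ⟨b, hbdef⟩ : ∃ b : ℕ → ℝ, ∀ k, b k = (k : ℝ) * a k := ⟨_, fun _ => rfl⟩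
  have hrec' : ∀ n : ℕ, ((n : ℝ) + 1) * g (n + 1) = ∑ k ∈ range (n + 1), b (k + 1) * g (n - k) := by
    intro n
    rw [hrec n]
    refine Finset.sum_congr rfl fun k _ => ?_
    rw [hbdef]
    push_cast
    ring
  have hb : ∀ k, 0 ≤ b k := fun k => by
    rw [hbdef]
    have := ha k
    positivity
  have hg : ∀ n, 0 ≤ g n := by
    intro n
    induction n using Nat.strong_induction_on with
    | _ n ih =>
      rcases Nat.eq_zero_or_pos n with rfl | hn
      · rw [g0]
        norm_num
      · have hnpos : (0 : ℝ) < n := by exact_mod_cast hn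
        have h1 : 0 ≤ (n : ℝ) * g n := by
          rw [rec_sum hrec' hn]
          refine Finset.sum_nonneg fun j hj => ?_
          exact mul_nonneg (hb _) (ih j (Finset.mem_range.mp hj))
        exact nonneg_of_mul_nonneg_right h1 hnpos
  obtain ⟨C, hC, hbC⟩ : ∃ C : ℝ, 0 ≤ C ∧
      ∀ k : ℕ, 1 ≤ k → b k ≤ C * (k : ℝ) ^ (-(α - 1)) := by
    obtain ⟨C, hC⟩ := hK.bddAbove_range
    refine ⟨max C 0, le_max_right _ _, fun k hk => ?_⟩
    have hkpos : (0 : ℝ) < k := by exact_mod_cast hk
    have h1 : a k * (k : ℝ) ^ α ≤ C := hC ⟨k, rfl⟩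
    have h2 : b k = (a k * (k : ℝ) ^ α) * (k : ℝ) ^ (-(α - 1)) := by
      rw [hbdef, mul_assoc, ← Real.rpow_add hkpos]
      have : α + -(α - 1) = 1 := by ring
      rw [this, Real.rpow_one, mul_comm]
    rw [h2]
    exact mul_le_mul_of_nonneg_right (h1.trans (le_max_left _ _)) (by positivity)
  have hs : Summable b := summable_rpow (by linarith) hb hbC
  obtain ⟨s, hsdef⟩ : ∃ s : ℝ, s = ∑' k, b k := ⟨_, rfl⟩
  have hs0 : 0 ≤ s := by
    rw [hsdef]
    exact tsum_nonneg hb
  obtain ⟨M0, hM0, hM0g⟩ := bdd hb hs hg hrec'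
  -- first bootstrap
  obtain ⟨M1, -, hM1g⟩ : ∃ M : ℝ, 0 ≤ M ∧ ∀ n : ℕ, 1 ≤ n → g n ≤ M * (n : ℝ) ^ (-(α - 1)) := by
    refine boot (s := s) (D := C * 2 ^ (α - 1) * M0) (by positivity) (by linarith) ?_
    intro n hn V hV h
    have hnpos : (0 : ℝ) < n := by exact_mod_cast hn
    have h1 := split hα hC hb hbC hs hg hrec' hn hV h
    have h2 : ∑ j ∈ range n, g j ≤ n * M0 := by
      refine (Finset.sum_le_sum fun j _ => hM0g j).trans ?_
      rw [Finset.sum_const, Finset.card_range, nsmul_eq_mul]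
    have h3 : (n : ℝ) * g n ≤ s * V + C * (2 ^ (α - 1) * (n : ℝ) ^ (-(α - 1))) * (n * M0) := by
      rw [hsdef]
      refine h1.trans ?_
      gcongr
    have h4 : g n ≤ (s * V + C * (2 ^ (α - 1) * (n : ℝ) ^ (-(α - 1))) * (n * M0)) / n := by
      rw [le_div_iff₀ hnpos, mul_comm]
      exact h3
    refine h4.trans (le_of_eq ?_)
    field_simp
  have hgs : Summable g := summable_rpow (by linarith) hg hM1g
  obtain ⟨G, hG⟩ : ∃ G : ℝ, G = ∑' n, g n := ⟨_, rfl⟩
  have hG0 : 0 ≤ G := by
    rw [hG]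
    exact tsum_nonneg hg
  -- second bootstrap
  obtain ⟨M, hM, hMg⟩ : ∃ M : ℝ, 0 ≤ M ∧ ∀ n : ℕ, 1 ≤ n → g n ≤ M * (n : ℝ) ^ (-α) := by
    refine boot (s := s) (D := C * 2 ^ (α - 1) * G) (by positivity) (by linarith) ?_
    intro n hn V hV h
    have hnpos : (0 : ℝ) < n := by exact_mod_cast hn
    have h1 := split hα hC hb hbC hs hg hrec' hn hV h
    have h2 : ∑ j ∈ range n, g j ≤ G := by
      rw [hG]
      exact hgs.sum_le_tsum _ (fun k _ => hg k)
    have h3 : (n : ℝ) * g n ≤ s * V + C * (2 ^ (α - 1) * (n : ℝ) ^ (-(α - 1))) * G := by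
      rw [hsdef]
      refine h1.trans ?_
      gcongr
    have h4 : g n ≤ (s * V + C * (2 ^ (α - 1) * (n : ℝ) ^ (-(α - 1))) * G) / n := by
      rw [le_div_iff₀ hnpos, mul_comm]
      exact h3
    refine h4.trans (le_of_eq ?_)
    have h5 : (n : ℝ) ^ (-α) = (n : ℝ) ^ (-(α - 1)) / n := by
      have : -α = -(α - 1) - 1 := by ring
      rw [this, Real.rpow_sub_one hnpos.ne']
    rw [h5]
    ring
  refine ⟨hgs, hg, ?_⟩
  -- the limit
  have hsplit : ∀ n : ℕ, 1 ≤ n → g n * (n : ℝ) ^ α =
      (∑' j : ℕ, if 2 * j < n then (n : ℝ) ^ (α - 1) * b (n - j) * g j else 0) +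
        (n : ℝ) ^ (α - 1) * ∑ j ∈ (range n).filter (fun j => ¬ 2 * j < n), b (n - j) * g j := by
    intro n hn
    have hnpos : (0 : ℝ) < n := by exact_mod_cast hn
    have h1 : g n * (n : ℝ) ^ α = (n : ℝ) ^ (α - 1) * ((n : ℝ) * g n) := by
      have : (n : ℝ) ^ α = (n : ℝ) ^ (α - 1) * n := by
        rw [← Real.rpow_add_one hnpos.ne', sub_add_cancel]
      rw [this]
      ring
    have h2 : (∑' j : ℕ, if 2 * j < n then (n : ℝ) ^ (α - 1) * b (n - j) * g j else 0) =
        (n : ℝ) ^ (α - 1) * ∑ j ∈ (range n).filter (fun j => 2 * j < n), b (n - j) * g j := by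
      rw [tsum_eq_sum (s := (range n).filter (fun j => 2 * j < n)), Finset.mul_sum]
      · refine Finset.sum_congr rfl fun j hj => ?_
        rw [if_pos (Finset.mem_filter.mp hj).2]
        ring
      · intro j hj
        rw [if_neg]
        intro h
        exact hj (Finset.mem_filter.mpr ⟨Finset.mem_range.mpr (by omega), h⟩)
    rw [h1, rec_sum hrec' hn, h2, ← mul_add, Finset.sum_filter_add_sum_filter_not]
  have hpart2 : Tendsto (fun n : ℕ => (n : ℝ) ^ (α - 1) *
      ∑ j ∈ (range n).filter (fun j => ¬ 2 * j < n), b (n - j) * g j) atTop (𝓝 0) := by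
    have h0 : Tendsto (fun n : ℕ => (s * M * 2 ^ α) * ((n : ℝ))⁻¹) atTop (𝓝 0) := by
      have := (tendsto_inv_atTop_nhds_zero_nat (𝕜 := ℝ)).const_mul (s * M * 2 ^ α)
      rwa [mul_zero] at this
    refine squeeze_zero' ?_ ?_ h0
    · refine Eventually.of_forall fun n => ?_
      refine mul_nonneg (by positivity) (Finset.sum_nonneg fun j _ => mul_nonneg (hb _) (hg _))
    · filter_upwards [eventually_ge_atTop 1] with n hn
      have hnpos : (0 : ℝ) < n := by exact_mod_cast hn
      have h1 : ∑ j ∈ (range n).filter (fun j => ¬ 2 * j < n), b (n - j) * g j ≤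
          s * (M * (2 ^ α * (n : ℝ) ^ (-α))) := by
        calc ∑ j ∈ (range n).filter (fun j => ¬ 2 * j < n), b (n - j) * g j
            ≤ ∑ j ∈ (range n).filter (fun j => ¬ 2 * j < n),
                b (n - j) * (M * (2 ^ α * (n : ℝ) ^ (-α))) := by
              refine Finset.sum_le_sum fun j hj => ?_
              obtain ⟨hj1, hj2⟩ := Finset.mem_filter.mp hj
              have hj1' := Finset.mem_range.mp hj1
              refine mul_le_mul_of_nonneg_left ?_ (hb _)
              refine (hMg j (by omega)).trans ?_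
              refine mul_le_mul_of_nonneg_left ?_ hM
              rw [← half_rpow hnpos.le]
              refine Real.rpow_le_rpow_of_nonpos (by positivity) ?_ (by linarith)
              have : (n : ℝ) ≤ 2 * j := by
                have : n ≤ 2 * j := by omega
                exact_mod_cast this
              linarith
          _ = (∑ j ∈ (range n).filter (fun j => ¬ 2 * j < n), b (n - j)) *
                (M * (2 ^ α * (n : ℝ) ^ (-α))) := by rw [Finset.sum_mul]
          _ ≤ s * (M * (2 ^ α * (n : ℝ) ^ (-α))) := by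
              refine mul_le_mul_of_nonneg_right ?_ (by positivity)
              have h3 : ∑ j ∈ (range n).filter (fun j => ¬ 2 * j < n), b (n - j) =
                  ∑ j ∈ ((range n).filter (fun j => ¬ 2 * j < n)).image (fun j => n - j), b j := by
                rw [Finset.sum_image]
                intro i hi j hj hij
                have hi' := Finset.mem_range.mp (Finset.mem_filter.mp hi).1
                have hj' := Finset.mem_range.mp (Finset.mem_filter.mp hj).1
                simp only at hij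
                omega
              rw [h3, hsdef]
              exact hs.sum_le_tsum _ (fun k _ => hb k)
      calc (n : ℝ) ^ (α - 1) * ∑ j ∈ (range n).filter (fun j => ¬ 2 * j < n), b (n - j) * g j
          ≤ (n : ℝ) ^ (α - 1) * (s * (M * (2 ^ α * (n : ℝ) ^ (-α)))) :=
            mul_le_mul_of_nonneg_left h1 (by positivity)
        _ = (s * M * 2 ^ α) * ((n : ℝ) ^ (α - 1) * (n : ℝ) ^ (-α)) := by ring
        _ = (s * M * 2 ^ α) * ((n : ℝ))⁻¹ := by
            rw [← Real.rpow_add hnpos]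
            have : α - 1 + -α = -1 := by ring
            rw [this, Real.rpow_neg_one]
  have hpart1 : Tendsto (fun n : ℕ =>
      ∑' j : ℕ, if 2 * j < n then (n : ℝ) ^ (α - 1) * b (n - j) * g j else 0) atTop
      (𝓝 (∑' j, K * g j)) := by
    refine tendsto_tsum_of_dominated_convergence (bound := fun j => C * 2 ^ (α - 1) * g j)
      (hgs.mul_left _) ?_ ?_
    · intro j
      have h1 : Tendsto (fun n : ℕ => a (n - j) * ((n - j : ℕ) : ℝ) ^ α) atTop (𝓝 K) :=
        hK.comp (tendsto_sub_atTop_nat j)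
      have h2 : Tendsto (fun n : ℕ => ((n : ℝ) / ((n - j : ℕ) : ℝ)) ^ (α - 1)) atTop (𝓝 1) := by
        have h3 : Tendsto (fun n : ℕ => (n : ℝ) / ((n - j : ℕ) : ℝ)) atTop (𝓝 1) := by
          have h4 : Tendsto (fun n : ℕ => ((n + j : ℕ) : ℝ) / ((n : ℕ) : ℝ)) atTop (𝓝 1) := by
            have h5 : Tendsto (fun n : ℕ => 1 + (j : ℝ) * ((n : ℝ))⁻¹) atTop (𝓝 (1 + j * 0)) :=
              ((tendsto_inv_atTop_nhds_zero_nat (𝕜 := ℝ)).const_mul _).const_add 1
            rw [mul_zero, add_zero] at h5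
            refine h5.congr' ?_
            filter_upwards [eventually_ge_atTop 1] with n hn
            have hnpos : (0 : ℝ) < n := by exact_mod_cast hn
            push_cast
            field_simp
          rw [← tendsto_add_atTop_iff_nat j]
          refine h4.congr fun n => ?_
          rw [Nat.add_sub_cancel]
        have h4 := h3.rpow_const (p := α - 1) (Or.inl one_ne_zero)
        rwa [Real.one_rpow] at h4
      have h3 := (h2.mul h1).mul_const (g j)
      rw [one_mul] at h3
      refine h3.congr' ?_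
      filter_upwards [eventually_gt_atTop (2 * j)] with n hn
      rw [if_pos hn, hbdef]
      have hnj : (0 : ℝ) < ((n - j : ℕ) : ℝ) := by
        have : 0 < n - j := by omega
        exact_mod_cast this
      have hn0 : (0 : ℝ) ≤ (n : ℝ) := by positivity
      rw [Real.div_rpow hn0 hnj.le]
      have h5 : ((n - j : ℕ) : ℝ) ^ α = ((n - j : ℕ) : ℝ) ^ (α - 1) * ((n - j : ℕ) : ℝ) := by
        rw [← Real.rpow_add_one hnj.ne', sub_add_cancel]
      rw [h5]
      have h6 : ((n - j : ℕ) : ℝ) ^ (α - 1) ≠ 0 := (Real.rpow_pos_of_pos hnj _).ne'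
      field_simp
    · refine Eventually.of_forall fun n j => ?_
      have hgj := hg j
      by_cases hj : 2 * j < n
      · rw [if_pos hj, Real.norm_eq_abs, abs_of_nonneg (by
          have := hb (n - j)
          positivity)]
        refine mul_le_mul_of_nonneg_right ?_ hgj
        have hnpos : (0 : ℝ) < n := by
          have : 0 < n := by omega
          exact_mod_cast this
        have h1 : b (n - j) ≤ C * (2 ^ (α - 1) * (n : ℝ) ^ (-(α - 1))) := by
          refine (hbC (n - j) (by omega)).trans ?_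
          rw [← half_rpow hnpos.le]
          refine mul_le_mul_of_nonneg_left ?_ hC
          refine Real.rpow_le_rpow_of_nonpos (by positivity) ?_ (by linarith)
          rw [Nat.cast_sub (by omega)]
          have : (2 * j : ℝ) < n := by exact_mod_cast hj
          linarith
        calc (n : ℝ) ^ (α - 1) * b (n - j)
            ≤ (n : ℝ) ^ (α - 1) * (C * (2 ^ (α - 1) * (n : ℝ) ^ (-(α - 1)))) :=
              mul_le_mul_of_nonneg_left h1 (by positivity)
          _ = C * 2 ^ (α - 1) * ((n : ℝ) ^ (α - 1) * (n : ℝ) ^ (-(α - 1))) := by ring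
          _ = C * 2 ^ (α - 1) := by
              rw [← Real.rpow_add hnpos, add_neg_cancel, Real.rpow_zero, mul_one]
      · rw [if_neg hj, norm_zero]
        positivity
  rw [← tsum_mul_left]
  have h := hpart1.add hpart2
  rw [add_zero] at h
  refine h.congr' ?_
  filter_upwards [eventually_ge_atTop 1] with n hn
  exact (hsplit n hn).symm

end K5T
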