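import Pool.Agent.Lib.K5T.Id
import Pool.Agent.Lib.K5T.Inv

/-!
# K5T.Near: `R` near its singularity

`κ := 1 + a2 > 0`. Let `w ∈ ball 0 rho`, `w → rho`, `u := R w`: `u ∈ ball 0 x0` (`norm_R_lt`), `u → x0` (`continuousOn_fn`, `r_lim`). By `loc`: `β(u) = h(U)` with `U := sq (u / x0)`, `U^2 = 1 - u/x0` (`sq_sq`), `U → 0`, and `|U.im| < U.re`: `(1 - u/x0).re > 0` so `U.re^2 > U.im^2`, and `U.re > 0`
(`sq_re_pos`). `w = u exp(-β(u))` (`fun_eq`) `= x0 (1 - U^2) exp(-h(U))`, `rho = x0 exp(-a0)` (`rho_eq`, `a0_eq`), so `1 - w/rho = E(U)`, `E(U) := 1 - (1 - U^2) exp(a0 - h(U))`, analytic at `0`. Expansion: `h(U) - a0 = a2 U^2 + a3 U^3 + O(U^4) =: t`, `exp(-t) = 1 - t + O(t^2) = 1 - a2 U^2 - a3 U^3 + O(U^4)`,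
so `E(U) = (1 + a2) U^2 + a3 U^3 + O(U^4)`. With `root` (Inv) for `E`, `κ`, `c = a3`: let `Z := sq (w / rho)`, `Z^2 = 1 - w/rho = E(U)`, `0 < Z.re` (`sq_re_pos`), so `U = g(Z)` and `R w = u = x0 (1 - U^2) = x0 (1 - g(Z)^2) =: H(Z)`. `T3 H`: `H` is analytic and
`g(Z)^2 = Z^2/κ - (a3/κ^(5/2)) Z^3 + O(Z^4)`.
-/

namespace K5T

open Filter Topology Metric Asymptotics

namespace NearAux

/-- The expansion of `1 - (1 - U^2) exp (a0 - h U)`. -/
theorem expand {h : ℂ → ℂ} {a0 a2 a3 : ℝ} (hh : T3 h a0 a2 a3) :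
    (fun U : ℂ => (1 - (1 - U ^ 2) * Complex.exp (a0 - h U)) -
      (((1 + a2 : ℝ) : ℂ) * U ^ 2 + (a3 : ℂ) * U ^ 3)) =O[𝓝 0] (fun U => U ^ 4) := by
  have p32 : (fun U : ℂ => U ^ 3) =O[𝓝 0] (fun U : ℂ => U ^ 2) :=
    (isLittleO_pow_pow (by norm_num)).isBigO
  have p42 : (fun U : ℂ => U ^ 4) =O[𝓝 0] (fun U : ℂ => U ^ 2) :=
    (isLittleO_pow_pow (by norm_num)).isBigO
  have ht2 : (fun U : ℂ => h U - a0) =O[𝓝 0] (fun U : ℂ => U ^ 2) := by
    have h1 : (fun U : ℂ => (h U - (a0 + a2 * U ^ 2 + a3 * U ^ 3)) +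
        ((a2 : ℂ) * U ^ 2 + (a3 : ℂ) * U ^ 3)) =O[𝓝 0] (fun U : ℂ => U ^ 2) :=
      (hh.exp.trans p42).add (((isBigO_refl _ _).const_mul_left _).add
        (p32.const_mul_left _))
    refine h1.congr_left (fun U => by ring)
  have ht0 : Tendsto (fun U : ℂ => h U - a0) (𝓝 0) (𝓝 0) := by
    refine ht2.trans_tendsto ?_
    have : Tendsto (fun U : ℂ => U ^ 2) (𝓝 0) (𝓝 (0 ^ 2)) :=
      (continuous_pow 2).tendsto 0
    simpa using this
  have hr : (fun U : ℂ => Complex.exp (a0 - h U) - 1 + (h U - a0)) =O[𝓝 0]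
      (fun U : ℂ => U ^ 4) := by
    have h1 : (fun U : ℂ => Complex.exp (a0 - h U) - 1 + (h U - a0)) =O[𝓝 0]
        (fun U : ℂ => (h U - a0) ^ 2) := by
      refine IsBigO.of_bound 1 ?_
      have hn : ∀ᶠ U in 𝓝 (0 : ℂ), ‖h U - a0‖ < 1 := by
        have := ht0.norm
        rw [norm_zero] at this
        exact this.eventually (gt_mem_nhds one_pos)
      filter_upwards [hn] with U hU
      have h2 : ‖(a0 : ℂ) - h U‖ ≤ 1 := by
        rw [norm_sub_rev]
        exact hU.le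
      have h3 := Complex.norm_exp_sub_one_sub_id_le h2
      rw [one_mul, norm_pow, norm_sub_rev (h U)]
      have h4 : Complex.exp (a0 - h U) - 1 + (h U - a0) =
          Complex.exp (a0 - h U) - 1 - (a0 - h U) := by ring
      rw [h4]
      exact h3
    refine h1.trans ?_
    have h2 := ht2.pow 2
    refine h2.congr_right (fun U => by ring)
  have e2 : (fun U : ℂ => U ^ 2 * (h U - a0)) =O[𝓝 0] (fun U : ℂ => U ^ 4) := by
    refine ((isBigO_refl (fun U : ℂ => U ^ 2) _).mul ht2).congr_right (fun U => by ring)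
  have e3 : (fun U : ℂ => (1 - U ^ 2) * (Complex.exp (a0 - h U) - 1 + (h U - a0))) =O[𝓝 0]
      (fun U : ℂ => U ^ 4) := by
    have hc : (fun U : ℂ => 1 - U ^ 2) =O[𝓝 0] (fun _ : ℂ => (1 : ℂ)) := by
      have : Tendsto (fun U : ℂ => 1 - U ^ 2) (𝓝 0) (𝓝 (1 - 0 ^ 2)) := by
        apply Continuous.tendsto
        fun_prop
      exact this.isBigO_one ℂ
    refine (hc.mul hr).congr_right (fun U => by ring)
  refine ((hh.exp.sub e2).sub e3).congr_left (fun U => ?_)
  push_cast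
  ring

end NearAux

namespace Data

variable (S : Data)

theorem near_R : ∃ H : ℂ → ℂ, T3 H S.x0 ((-S.x0 / (1 + S.a2) : ℝ) : ℂ)
    ((S.x0 * (S.a3 / (1 + S.a2) ^ (5 / 2 : ℝ)) : ℝ) : ℂ) ∧
    ∀ᶠ w in 𝓝[ball (0 : ℂ) S.rho] (S.rho : ℂ), fn S.r w = H (sq (w / S.rho)) := by
  have hρ := S.rho_pos
  have hx0 := S.x0_pos
  have hx0c : (S.x0 : ℂ) ≠ 0 := Complex.ofReal_ne_zero.2 hx0.ne'
  have hρc : (S.rho : ℂ) ≠ 0 := Complex.ofReal_ne_zero.2 hρ.ne'
  have hEan : AnalyticAt ℂ (fun U : ℂ => 1 - (1 - U ^ 2) * Complex.exp (S.a0 - S.h U)) 0 := by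
    have h1 := S.t3.an
    have h2 : AnalyticAt ℂ (fun U : ℂ => Complex.exp (S.a0 - S.h U)) 0 :=
      (analyticAt_const.sub h1).cexp
    have h3 : AnalyticAt ℂ (fun U : ℂ => (1 : ℂ) - U ^ 2) 0 :=
      analyticAt_const.sub (analyticAt_id.pow 2)
    exact analyticAt_const.sub (h3.mul h2)
  obtain ⟨g, hg, hg0, hgi, hg2⟩ := root hEan S.kap (NearAux.expand S.t3)
  refine ⟨fun Z => S.x0 * (1 - g Z ^ 2), ⟨?_, ?_⟩, ?_⟩
  · exact analyticAt_const.mul (analyticAt_const.sub (hg.pow 2))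
  · have h1 := hg2.const_mul_left (-(S.x0 : ℂ))
    refine h1.congr_left (fun Z => ?_)
    push_cast
    ring
  · have hball : ∀ w ∈ ball (0 : ℂ) S.rho, fn S.r w ∈ ball (0 : ℂ) S.x0 := by
      intro w hw
      rw [mem_ball_zero_iff] at hw ⊢
      refine S.norm_R_lt hw.le (fun he => ?_)
      rw [he, Complex.norm_real, Real.norm_of_nonneg hρ.le] at hw
      exact lt_irrefl _ hw
    have hcont : Tendsto (fn S.r) (𝓝[ball 0 S.rho] (S.rho : ℂ)) (𝓝 (S.x0 : ℂ)) := by
      have h2 : ContinuousWithinAt (fn S.r) (closedBall 0 S.rho) (S.rho : ℂ) :=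
        continuousOn_fn S.r_nonneg S.r_sum _ (by
          rw [mem_closedBall_zero_iff, Complex.norm_real, Real.norm_of_nonneg hρ.le])
      have h3 : fn S.r (S.rho : ℂ) = S.x0 := by
        rw [fn_ofReal, S.r_lim]
      have h4 := h2.mono ball_subset_closedBall
      unfold ContinuousWithinAt at h4
      rw [h3] at h4
      exact h4
    have ht : Tendsto (fn S.r) (𝓝[ball 0 S.rho] (S.rho : ℂ)) (𝓝[ball 0 S.x0] (S.x0 : ℂ)) :=
      tendsto_nhdsWithin_iff.2 ⟨hcont, eventually_nhdsWithin_of_forall hball⟩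
    have hU : Tendsto (fun w => sq (fn S.r w / S.x0)) (𝓝[ball 0 S.rho] (S.rho : ℂ))
        (𝓝 0) := by
      refine sq_tendsto.comp ?_
      have h1 := hcont.div_const (S.x0 : ℂ)
      rwa [div_self hx0c] at h1
    filter_upwards [ht.eventually S.loc, hU.eventually hgi, self_mem_nhdsWithin] with w h1 h2 h3
    have hwn : ‖w‖ < S.rho := by rwa [mem_ball_zero_iff] at h3
    have hun : ‖fn S.r w‖ < S.x0 := by
      have := hball w h3
      rwa [mem_ball_zero_iff] at this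
    have hun1 : (fn S.r w / S.x0).re < 1 := by
      refine (Complex.re_le_norm _).trans_lt ?_
      rw [norm_div, Complex.norm_real, Real.norm_of_nonneg hx0.le, div_lt_one hx0]
      exact hun
    have hwn1 : (w / S.rho).re < 1 := by
      refine (Complex.re_le_norm _).trans_lt ?_
      rw [norm_div, Complex.norm_real, Real.norm_of_nonneg hρ.le, div_lt_one hρ]
      exact hwn
    have hUsq : sq (fn S.r w / S.x0) ^ 2 = 1 - fn S.r w / S.x0 := sq_sq
    have hu : fn S.r w = S.x0 * (1 - sq (fn S.r w / S.x0) ^ 2) := by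
      rw [hUsq]
      field_simp
      ring
    have hUre := sq_re_pos hun1
    have hUim : |(sq (fn S.r w / S.x0)).im| < (sq (fn S.r w / S.x0)).re := by
      have h4 : 0 < (sq (fn S.r w / S.x0) ^ 2).re := by
        rw [hUsq, Complex.sub_re, Complex.one_re]
        linarith
      rw [pow_two, Complex.mul_re] at h4
      rw [abs_lt]
      constructor <;> nlinarith
    have hZ : sq (w / S.rho) ^ 2 =
        1 - (1 - sq (fn S.r w / S.x0) ^ 2) * Complex.exp (S.a0 - S.h (sq (fn S.r w / S.x0))) := by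
      have h4 := S.fun_eq hwn.le
      rw [h1] at h4
      have h5 : (S.rho : ℂ) = S.x0 * Complex.exp (-(S.a0 : ℂ)) := by
        rw [S.rho_eq, S.a0_eq]
        push_cast
        rfl
      have h6 : w = fn S.r w * Complex.exp (-S.h (sq (fn S.r w / S.x0))) := by
        have h7 : Complex.exp (S.h (sq (fn S.r w / S.x0))) *
            Complex.exp (-S.h (sq (fn S.r w / S.x0))) = 1 := by
          rw [← Complex.exp_add, add_neg_cancel, Complex.exp_zero]
        calc w = w * (Complex.exp (S.h (sq (fn S.r w / S.x0))) *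
            Complex.exp (-S.h (sq (fn S.r w / S.x0)))) := by rw [h7, mul_one]
          _ = (w * Complex.exp (S.h (sq (fn S.r w / S.x0)))) *
            Complex.exp (-S.h (sq (fn S.r w / S.x0))) := by ring
          _ = _ := by rw [← h4]
      have h8 : w / S.rho = (1 - sq (fn S.r w / S.x0) ^ 2) *
          Complex.exp (S.a0 - S.h (sq (fn S.r w / S.x0))) := by
        have h9 : Complex.exp (-(S.a0 : ℂ)) ≠ 0 := Complex.exp_ne_zero _
        rw [div_eq_iff hρc, h5, Complex.exp_sub]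
        have h10 : Complex.exp (S.a0 : ℂ) * Complex.exp (-(S.a0 : ℂ)) = 1 := by
          rw [← Complex.exp_add, add_neg_cancel, Complex.exp_zero]
        have h11 : w = S.x0 * (1 - sq (fn S.r w / S.x0) ^ 2) *
            Complex.exp (-S.h (sq (fn S.r w / S.x0))) := by
          rw [← hu]
          exact h6
        rw [Complex.exp_neg] at h11
        calc w = S.x0 * (1 - sq (fn S.r w / S.x0) ^ 2) *
            (Complex.exp (S.h (sq (fn S.r w / S.x0))))⁻¹ := h11
          _ = S.x0 * (1 - sq (fn S.r w / S.x0) ^ 2) *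
            (Complex.exp (S.h (sq (fn S.r w / S.x0))))⁻¹ *
              (Complex.exp (S.a0 : ℂ) * Complex.exp (-(S.a0 : ℂ))) := by rw [h10, mul_one]
          _ = _ := by
            rw [div_eq_mul_inv]
            ring
      rw [sq_sq, h8]
    have hfin := h2 (sq (w / S.rho)) hZ (sq_re_pos hwn1) hUim
    rw [hu, hfin]

end Data

end K5T
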