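import Pool.Agent.Lib.K5T.Dar
import Pool.Agent.Lib.K5T.Circ
import Pool.Agent.Lib.K5T.Near
import Pool.Agent.Lib.K5T.ExpS

/-!
# K5T.Trans: the coefficients of `R`

`a n := r n * rho^n`, `f z := fn r (rho * z)` for `‖z‖ < 1`. `darboux`: `hf` from `hasSum_fn` (`‖rho z‖ ≤ rho`, `(rho z)^n = rho^n z^n`), `hc` from `ext_R` at `rho * z` composed with `w ↦ rho * w` (maps `ball 0 1` to `ball 0 rho`; `rho * z ≠ rho`), `hl` from `near_R` (`sq (rho w / rho) = sq w`).
-/

namespace K5T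

open Filter Topology Metric Asymptotics

namespace Data

variable (S : Data)

namespace TransAux

theorem tendsto_mul (z : ℂ) : Tendsto (fun w : ℂ => (S.rho : ℂ) * w) (𝓝[ball (0 : ℂ) 1] z)
    (𝓝[ball (0 : ℂ) S.rho] ((S.rho : ℂ) * z)) := by
  have hr := S.rho_pos
  refine tendsto_nhdsWithin_iff.2 ⟨?_, ?_⟩
  · exact ((continuous_const.mul continuous_id).tendsto z).mono_left nhdsWithin_le_nhds
  · filter_upwards [self_mem_nhdsWithin] with w hw
    rw [mem_ball_zero_iff] at hw ⊢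
    rw [norm_mul, Complex.norm_real, Real.norm_eq_abs, abs_of_pos hr]
    nlinarith

end TransAux

theorem r_tendsto : Tendsto (fun n : ℕ => S.r n * S.rho ^ n * (n : ℝ) ^ (5 / 2 : ℝ)) atTop
    (𝓝 (S.x0 * (S.a3 / (1 + S.a2) ^ (5 / 2 : ℝ)) / Real.Gamma (-(3 / 2)))) := by
  have hr := S.rho_pos
  have hrc : (S.rho : ℂ) ≠ 0 := by exact_mod_cast hr.ne'
  obtain ⟨H, hH, hN⟩ := S.near_R
  refine darboux (a := fun n => S.r n * S.rho ^ n) (f := fun z => fn S.r (S.rho * z)) (h := H)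
    (a0 := S.x0) (a2 := -S.x0 / (1 + S.a2)) (a3 := S.x0 * (S.a3 / (1 + S.a2) ^ (5 / 2 : ℝ)))
    ?_ ?_ hH ?_
  · intro z hz
    have h1 : ‖(S.rho : ℂ) * z‖ ≤ S.rho := by
      rw [norm_mul, Complex.norm_real, Real.norm_eq_abs, abs_of_pos hr]
      nlinarith
    have h2 := hasSum_fn S.r_nonneg S.r_sum h1
    convert h2 using 2 with n
    push_cast
    ring
  · intro z hz hne
    have h1 : ‖(S.rho : ℂ) * z‖ = S.rho := by
      rw [norm_mul, Complex.norm_real, Real.norm_eq_abs, abs_of_pos hr, hz, mul_one]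
    have h2 : (S.rho : ℂ) * z ≠ S.rho := by
      intro h
      exact hne (mul_left_cancel₀ hrc (by rw [h, mul_one]))
    obtain ⟨g, hg, he⟩ := S.ext_R h1 h2
    refine ⟨fun w => g (S.rho * w), ?_, (TransAux.tendsto_mul S z).eventually he⟩
    exact AnalyticAt.comp_of_eq hg (analyticAt_const.mul analyticAt_id) rfl
  · have h1 := TransAux.tendsto_mul S 1
    rw [mul_one] at h1
    filter_upwards [h1.eventually hN] with w hw
    rw [hw, mul_div_cancel_left₀ w hrc]

end Data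

end K5T
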