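import Pool.Agent.Lib.K5.BMain
import Pool.Agent.Lib.K5T.Trans
import Pool.Agent.Lib.P512.Final

/-!
# K5T.Bridge: the data of the transfer theorem for the class `Ex(K_5)`
-/

namespace K5T

open Filter Topology Metric Finset
open scoped ENNReal
open K5 (bC rC bE rE egf eexp trc)

/-- The coefficients of `B'`. -/
noncomputable def bb (n : ℕ) : ℝ := (bC n : ℝ) / n.factorial

/-- The coefficients of `z C'(z)`. -/
noncomputable def rr (n : ℕ) : ℝ := if n = 0 then 0 else (rC (n - 1) : ℝ) / (n - 1).factorial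

namespace BridgeAux

theorem egf_real (F : ℕ → ℕ) {x : ℝ} (hx : 0 ≤ x)
    (h : egf (fun n => (F n : ℝ≥0∞)) (.ofReal x) ≠ ⊤) :
    Summable (fun n : ℕ => (F n : ℝ) / n.factorial * x ^ n) ∧
      egf (fun n => (F n : ℝ≥0∞)) (.ofReal x) =
        .ofReal (∑' n : ℕ, (F n : ℝ) / n.factorial * x ^ n) := by
  have h1 : ∀ n : ℕ, ENNReal.ofReal x ^ n / (n.factorial : ℝ≥0∞) * (F n : ℝ≥0∞) =
      .ofReal ((F n : ℝ) / n.factorial * x ^ n) := fun n => by
    rw [K5.BMainAux.term_real hx]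
    congr 1
    ring
  have h2 : ∀ n : ℕ, 0 ≤ (F n : ℝ) / n.factorial * x ^ n := fun n => by positivity
  have h3 : egf (fun n => (F n : ℝ≥0∞)) (.ofReal x) =
      ∑' n : ℕ, ENNReal.ofReal ((F n : ℝ) / n.factorial * x ^ n) := by
    unfold egf
    exact tsum_congr h1
  rw [h3] at h ⊢
  have h4 : Summable (fun n : ℕ => (F n : ℝ) / n.factorial * x ^ n) := by
    have h5 := ENNReal.summable_toReal h
    refine h5.congr fun n => ?_
    rw [ENNReal.toReal_ofReal (h2 n)]
  exact ⟨h4, (ENNReal.ofReal_tsum_of_nonneg h2 h4).symm⟩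

theorem egf_of_summable (F : ℕ → ℕ) {x : ℝ} (hx : 0 ≤ x)
    (h : Summable (fun n : ℕ => (F n : ℝ) / n.factorial * x ^ n)) :
    egf (fun n => (F n : ℝ≥0∞)) (.ofReal x) =
        .ofReal (∑' n : ℕ, (F n : ℝ) / n.factorial * x ^ n) := by
  rw [ENNReal.ofReal_tsum_of_nonneg (fun n => by positivity) h]
  unfold egf
  refine tsum_congr fun n => ?_
  rw [K5.BMainAux.term_real hx]
  congr 1
  ring

theorem rr_succ (n : ℕ) : rr (n + 1) = (rC n : ℝ) / n.factorial := by
  unfold rr
  simp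

theorem rr_nonneg (n : ℕ) : 0 ≤ rr n := by
  unfold rr
  split_ifs
  · exact le_rfl
  · positivity

theorem rr_shift {z : ℝ} (h : Summable (fun n : ℕ => (rC n : ℝ) / n.factorial * z ^ n)) :
    Summable (fun n : ℕ => rr n * z ^ n) ∧
      fr rr z = z * ∑' n : ℕ, (rC n : ℝ) / n.factorial * z ^ n := by
  have h1 : ∀ n : ℕ, rr (n + 1) * z ^ (n + 1) = z * ((rC n : ℝ) / n.factorial * z ^ n) :=
    fun n => by
      rw [rr_succ]
      ring
  have h2 : Summable (fun n : ℕ => rr (n + 1) * z ^ (n + 1)) := by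
    simp only [h1]
    exact h.mul_left z
  have h3 : Summable (fun n : ℕ => rr n * z ^ n) :=
    (summable_nat_add_iff (f := fun n : ℕ => rr n * z ^ n) 1).1 h2
  refine ⟨h3, ?_⟩
  unfold fr
  rw [h3.tsum_eq_zero_add]
  simp only [h1]
  rw [tsum_mul_left]
  simp [rr]

theorem rE_le {x0 b : ℝ} (hx0 : 0 < x0) (hb0 : 0 ≤ b) (hb : egf bE (.ofReal x0) ≤ .ofReal b) :
    egf rE (.ofReal (x0 * Real.exp (-b))) ≤ .ofReal (Real.exp b) := by
  set r : ℝ := x0 * Real.exp (-b) with hr
  have hr0 : 0 < r := by positivity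
  have hrx : r * Real.exp b = x0 := by
    rw [hr, mul_assoc, ← Real.exp_add]
    simp
  have key : ∀ N, egf (trc rE N) (.ofReal r) ≤ .ofReal (Real.exp b) := by
    intro N
    induction N with
    | zero =>
      refine (K5.BMainAux.sys.egf_zero _).trans ?_
      rw [← ENNReal.ofReal_one]
      exact ENNReal.ofReal_le_ofReal (Real.one_le_exp hb0)
    | succ N ih =>
      refine (K5.BMainAux.sys.egf_step _ N).trans ?_
      rw [← K5.eexp_ofReal hb0]
      refine K5.eexp_mono (le_trans (K5.BMainAux.egf_mono_x _ ?_) hb)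
      calc ENNReal.ofReal r * egf (trc rE N) (.ofReal r)
          ≤ ENNReal.ofReal r * .ofReal (Real.exp b) := by gcongr
        _ = .ofReal x0 := by rw [← ENNReal.ofReal_mul hr0.le, hrx]
  unfold egf
  refine ENNReal.tsum_le_of_sum_range_le fun N => ?_
  refine le_trans ?_ (key N)
  unfold egf
  refine le_trans (Finset.sum_le_sum fun n hn => ?_) (ENNReal.sum_le_tsum (range N))
  have h1 : n ≤ N := (Finset.mem_range.1 hn).le
  simp [trc, h1]

end BridgeAux

open BridgeAux

/-- The data. -/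
noncomputable def mkData {x0 : ℝ} (hx0 : 0 < x0) (hfin : egf bE (.ofReal x0) ≠ ⊤)
    {h : ℂ → ℂ} {a0 a2 a3 : ℝ}
    (loc : ∀ᶠ u in 𝓝[ball (0 : ℂ) x0] (x0 : ℂ), fn bb u = h (sq (u / x0)))
    (t3 : T3 h a0 a2 a3) (kap : 0 < 1 + a2) : Data where
  b := bb
  r := rr
  x0 := x0
  rho := x0 * Real.exp (-fr bb x0)
  h := h
  a0 := a0
  a2 := a2
  a3 := a3
  b_nonneg := fun n => by unfold bb; positivity
  b_zero := by simp [bb, K5.bC_zero]
  x0_pos := hx0
  b_sum := (egf_real bC hx0.le hfin).1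
  rho_eq := rfl
  loc := loc
  t3 := t3
  kap := kap
  r_nonneg := rr_nonneg
  r_zero := by simp [rr]
  r_one := by
    rw [rr_succ, K5.rC_eq]
    have h1 : (0 : ℝ) < P512.c (0 + 1) := by exact_mod_cast P512.c_pos 1 le_rfl
    positivity
  r_two := by
    rw [rr_succ, K5.rC_eq]
    have h1 : (0 : ℝ) < P512.c (1 + 1) := by exact_mod_cast P512.c_pos 2 (by norm_num)
    positivity
  r_sum := by
    have hB := (egf_real bC hx0.le hfin).2
    have hb0 : 0 ≤ fr bb x0 := tsum_nonneg fun n => by unfold bb; positivity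
    have h1 := rE_le hx0 hb0 hB.le
    have h2 : egf rE (.ofReal (x0 * Real.exp (-fr bb x0))) ≠ ⊤ :=
      ne_top_of_le_ne_top ENNReal.ofReal_ne_top h1
    exact (rr_shift (egf_real rC (by positivity) h2).1).1
  r_le := by
    have hB := (egf_real bC hx0.le hfin).2
    have hb0 : 0 ≤ fr bb x0 := tsum_nonneg fun n => by unfold bb; positivity
    have h1 := rE_le hx0 hb0 hB.le
    have h2 : egf rE (.ofReal (x0 * Real.exp (-fr bb x0))) ≠ ⊤ :=
      ne_top_of_le_ne_top ENNReal.ofReal_ne_top h1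
    have h3 := egf_real rC (by positivity) h2
    rw [(rr_shift h3.1).2]
    have h4 : ENNReal.ofReal (∑' n : ℕ, (rC n : ℝ) / n.factorial *
        (x0 * Real.exp (-fr bb x0)) ^ n) ≤ .ofReal (Real.exp (fr bb x0)) := by
      rw [← h3.2]
      exact h1
    rw [ENNReal.ofReal_le_ofReal_iff (Real.exp_pos _).le] at h4
    calc x0 * Real.exp (-fr bb x0) * ∑' n : ℕ, (rC n : ℝ) / n.factorial *
        (x0 * Real.exp (-fr bb x0)) ^ n
        ≤ x0 * Real.exp (-fr bb x0) * Real.exp (fr bb x0) := by gcongr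
      _ = x0 := by rw [mul_assoc, ← Real.exp_add]; simp
  r_eq := by
    intro z hz0 hz
    have hB := (egf_real bC hx0.le hfin).2
    have hb0 : 0 ≤ fr bb x0 := tsum_nonneg fun n => by unfold bb; positivity
    have h1 := rE_le hx0 hb0 hB.le
    have h2 : egf rE (.ofReal z) ≠ ⊤ := by
      refine ne_top_of_le_ne_top ENNReal.ofReal_ne_top
        ((K5.BMainAux.egf_mono_x rE (ENNReal.ofReal_le_ofReal hz)).trans h1)
    have h3 := egf_real rC hz0 h2
    have h4 := rr_shift h3.1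
    set ρ : ℝ := ∑' n : ℕ, (rC n : ℝ) / n.factorial * z ^ n with hρ
    have hρ0 : 0 ≤ ρ := tsum_nonneg fun n => by positivity
    rw [h4.2]
    have h5 := K5.BMainAux.sys.egf_block (.ofReal z)
    have h6 : egf rE (.ofReal z) = .ofReal ρ := h3.2
    rw [h6, ← ENNReal.ofReal_mul hz0] at h5
    have hfin2 : egf bE (.ofReal (z * ρ)) ≠ ⊤ := by
      intro htop
      rw [htop, K5.eexp_top] at h5
      exact ENNReal.ofReal_ne_top h5
    have h7 : egf bE (.ofReal (z * ρ)) = .ofReal (fr bb (z * ρ)) :=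
      (egf_real bC (by positivity) hfin2).2
    have h8 : 0 ≤ fr bb (z * ρ) := tsum_nonneg fun n => by unfold bb; positivity
    rw [h7, K5.eexp_ofReal h8] at h5
    have h9 : ρ = Real.exp (fr bb (z * ρ)) := by
      have h10 := congrArg ENNReal.toReal h5
      rwa [ENNReal.toReal_ofReal hρ0, ENNReal.toReal_ofReal (Real.exp_pos _).le] at h10
    rw [← h9]

end K5T
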