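import Pool.Agent.Lib.K5T.Main

/-!
# K5T.Conn: the asymptotic numbers of graphs and of connected graphs in `Ex(K_5)`
-/

namespace K5T

open Filter Topology Metric Finset
open scoped ENNReal
open K5 (bC rC bE rE egf eexp trc)
open MainAux

/-- All graphs and connected graphs; `K / K'` is the sum of the series `∑ g_n / n! ρ^n`. -/
theorem asymp_both {x0 : ℝ} (hx0 : 0 < x0) (hfin : egf bE (.ofReal x0) ≠ ⊤)
    {h : ℂ → ℂ} {a0 a2 a3 : ℝ}
    (loc : ∀ᶠ u in 𝓝[ball (0 : ℂ) x0] (x0 : ℂ), fn bb u = h (sq (u / x0)))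
    (t3 : T3 h a0 a2 a3) (kap : 0 < 1 + a2) (ha3 : a3 ≠ 0) :
    ∃ K K' : ℝ, 0 < K ∧ 0 < K' ∧ Tendsto (fun n : ℕ => (P512.g n : ℝ) / n.factorial *
      (x0 * Real.exp (-fr bb x0)) ^ n * (n : ℝ) ^ (7 / 2 : ℝ)) atTop (𝓝 K) ∧
      Tendsto (fun n : ℕ => (P512.c n : ℝ) / n.factorial *
      (x0 * Real.exp (-fr bb x0)) ^ n * (n : ℝ) ^ (7 / 2 : ℝ)) atTop (𝓝 K') ∧
      Summable (fun n : ℕ => (P512.g n : ℝ) / n.factorial * (x0 * Real.exp (-fr bb x0)) ^ n) ∧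
      K = K' * ∑' n : ℕ, (P512.g n : ℝ) / n.factorial * (x0 * Real.exp (-fr bb x0)) ^ n := by
  let S := mkData hx0 hfin loc t3 kap
  have hr := S.r_tendsto
  set L : ℝ := S.x0 * (S.a3 / (1 + S.a2) ^ (5 / 2 : ℝ)) / Real.Gamma (-(3 / 2)) with hL
  have hρ := S.rho_pos
  have hL0 : 0 ≤ L := by
    refine ge_of_tendsto' hr fun n => ?_
    have := S.r_nonneg n
    positivity
  have hLne : L ≠ 0 := by
    rw [hL]
    have h1 : (0 : ℝ) < (1 + S.a2) ^ (5 / 2 : ℝ) := Real.rpow_pos_of_pos S.kap _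
    have h2 := S.x0_pos
    have h3 := gamma_pos
    have h4 : S.a3 ≠ 0 := ha3
    positivity
  have hLpos : 0 < L := lt_of_le_of_ne hL0 (Ne.symm hLne)
  have ha : ∀ n, 0 ≤ ca S.rho n := fun n => by
    unfold ca
    split_ifs
    · exact le_rfl
    · positivity
  have hK : Tendsto (fun n : ℕ => ca S.rho n * (n : ℝ) ^ (7 / 2 : ℝ)) atTop (𝓝 L) := by
    refine hr.congr' ?_
    filter_upwards [eventually_ge_atTop 1] with n hn
    have hn0 : (0 : ℝ) < n := by exact_mod_cast hn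
    have h1 : S.r n * S.rho ^ n = (n : ℝ) * ca S.rho n := (ca_eq S.rho n).symm
    have h2 : (n : ℝ) ^ (7 / 2 : ℝ) = (n : ℝ) * (n : ℝ) ^ (5 / 2 : ℝ) := by
      rw [show (7 / 2 : ℝ) = 1 + 5 / 2 by norm_num, Real.rpow_add hn0, Real.rpow_one]
    rw [h1, h2]
    ring
  have hg := exp_seq (by norm_num : (2 : ℝ) < 7 / 2) ha hK (g := ga S.rho)
    (by simp [ga, g_zero]) (ga_rec S.rho)
  refine ⟨L * ∑' n, ga S.rho n, L, ?_, hLpos, hg.2.2, ?_, hg.1, rfl⟩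
  · have h5 : 1 ≤ ∑' n, ga S.rho n := by
      have h6 := hg.1.le_tsum 0 (fun n _ => hg.2.1 n)
      simpa [ga, g_zero] using h6
    positivity
  · refine hK.congr' ?_
    filter_upwards [eventually_ge_atTop 1] with n hn
    have hn0 : n ≠ 0 := by omega
    simp only [ca, if_neg hn0]
    rfl

end K5T
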