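import Pool.Agent.Lib.K5T.Bridge
import Pool.Agent.Lib.K5.BAll

/-!
# K5T.Main: the asymptotic number of graphs in `Ex(K_5)`, from the local expansion of `B'`
-/

namespace K5T

open Filter Topology Metric Finset
open scoped ENNReal
open K5 (bC rC bE rE egf eexp trc)

namespace MainAux

theorem g_zero : P512.g 0 = 1 := by
  have h : Nat.card {G : SimpleGraph (Fin 0) // ¬ P512.K5 G} = 1 := by
    rw [Nat.card_eq_one_iff_unique]
    refine ⟨⟨fun a b => Subtype.ext (by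
      ext x
      exact x.elim0)⟩, ⟨⟨⊥, ?_⟩⟩⟩
    rintro ⟨B, h1, -, -⟩
    obtain ⟨x, -⟩ := (h1 0).1
    exact x.elim0
  exact h

/-- `c_n / n!` times `rho ^ n`, with the value `0` at `0`. -/
noncomputable def ca (rho : ℝ) (n : ℕ) : ℝ :=
  if n = 0 then 0 else (P512.c n : ℝ) / n.factorial * rho ^ n

/-- `g_n / n!` times `rho ^ n`. -/
noncomputable def ga (rho : ℝ) (n : ℕ) : ℝ := (P512.g n : ℝ) / n.factorial * rho ^ n

theorem ca_eq (rho : ℝ) (n : ℕ) : (n : ℝ) * ca rho n = rr n * rho ^ n := by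
  rcases n with _ | n
  · simp [ca, rr]
  · have h1 : ca rho (n + 1) = (P512.c (n + 1) : ℝ) / (n + 1).factorial * rho ^ (n + 1) := by
      simp [ca]
    rw [h1, BridgeAux.rr_succ, K5.rC_eq, Nat.factorial_succ]
    have h2 : (n.factorial : ℝ) ≠ 0 := by positivity
    have h3 : ((n : ℝ) + 1) ≠ 0 := by positivity
    push_cast
    field_simp

theorem ga_rec (rho : ℝ) (n : ℕ) : ((n : ℝ) + 1) * ga rho (n + 1) =
    ∑ k ∈ range (n + 1), ((k : ℝ) + 1) * ca rho (k + 1) * ga rho (n - k) := by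
  have h1 : ((n : ℝ) + 1) * ga rho (n + 1) = (P512.g (n + 1) : ℝ) / n.factorial *
      rho ^ (n + 1) := by
    unfold ga
    rw [Nat.factorial_succ]
    have h2 : (n.factorial : ℝ) ≠ 0 := by positivity
    have h3 : ((n : ℝ) + 1) ≠ 0 := by positivity
    push_cast
    field_simp
  rw [h1, K5.g_rec']
  push_cast
  rw [Finset.sum_div, Finset.sum_mul]
  refine Finset.sum_congr rfl fun k hk => ?_
  have hkn : k ≤ n := Nat.lt_succ_iff.1 (Finset.mem_range.1 hk)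
  have h4 : ca rho (k + 1) = (P512.c (k + 1) : ℝ) / (k + 1).factorial * rho ^ (k + 1) := by
    simp [ca]
  have h5 : (n.choose k : ℝ) = n.factorial / (k.factorial * (n - k).factorial) := by
    rw [Nat.choose_eq_factorial_div_factorial hkn, Nat.cast_div
      (Nat.factorial_mul_factorial_dvd_factorial hkn) (by positivity)]
    push_cast
    ring
  have h6 : rho ^ (n + 1) = rho ^ (k + 1) * rho ^ (n - k) := by
    rw [← pow_add]
    congr 1
    omega
  unfold ga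
  rw [h4, h5, h6, Nat.factorial_succ k]
  have h7 : (n.factorial : ℝ) ≠ 0 := by positivity
  have h8 : (k.factorial : ℝ) ≠ 0 := by positivity
  have h9 : ((n - k).factorial : ℝ) ≠ 0 := by positivity
  have h10 : ((k : ℝ) + 1) ≠ 0 := by positivity
  push_cast
  field_simp

theorem root_pow_tendsto : Tendsto (fun n : ℕ => ((n : ℝ) ^ (7 / 2 : ℝ)) ^ (1 / (n : ℝ))) atTop
    (𝓝 1) := by
  have h1 : Tendsto (fun n : ℕ => (7 / 2 : ℝ) * (Real.log (n : ℝ) / n)) atTop (𝓝 0) := by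
    have := P512.tendsto_log_div.const_mul (7 / 2 : ℝ)
    simpa using this
  have h2 := (Real.continuous_exp.tendsto 0).comp h1
  rw [Real.exp_zero] at h2
  refine h2.congr' ?_
  filter_upwards [eventually_ge_atTop 1] with n hn
  have hn0 : (0 : ℝ) < n := by exact_mod_cast hn
  simp only [Function.comp]
  rw [← Real.rpow_mul hn0.le, Real.rpow_def_of_pos hn0]
  congr 1
  ring

end MainAux

open MainAux

/-- The asymptotic number of graphs without a `K_5` minor, from the local expansion of `B'` at its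
singularity. -/
theorem asymp {x0 : ℝ} (hx0 : 0 < x0) (hfin : egf bE (.ofReal x0) ≠ ⊤)
    {h : ℂ → ℂ} {a0 a2 a3 : ℝ}
    (loc : ∀ᶠ u in 𝓝[ball (0 : ℂ) x0] (x0 : ℂ), fn bb u = h (sq (u / x0)))
    (t3 : T3 h a0 a2 a3) (kap : 0 < 1 + a2) (ha3 : a3 ≠ 0) :
    ∃ K : ℝ, 0 < K ∧ Tendsto (fun n : ℕ => (P512.g n : ℝ) / n.factorial *
      (x0 * Real.exp (-fr bb x0)) ^ n * (n : ℝ) ^ (7 / 2 : ℝ)) atTop (𝓝 K) := by
  let S := mkData hx0 hfin loc t3 kap
  have hr := S.r_tendsto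
  set L : ℝ := S.x0 * (S.a3 / (1 + S.a2) ^ (5 / 2 : ℝ)) / Real.Gamma (-(3 / 2)) with hL
  have hρ := S.rho_pos
  have hL0 : 0 ≤ L := by
    refine ge_of_tendsto' hr fun n => ?_
    have := S.r_nonneg n
    positivity
  have hLne : L ≠ 0 := by
    rw [hL]
    have h1 : (0 : ℝ) < (1 + S.a2) ^ (5 / 2 : ℝ) := Real.rpow_pos_of_pos S.kap _
    have h2 := S.x0_pos
    have h3 := gamma_pos
    have h4 : S.a3 ≠ 0 := ha3
    positivity
  have hLpos : 0 < L := lt_of_le_of_ne hL0 (Ne.symm hLne)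
  have ha : ∀ n, 0 ≤ ca S.rho n := fun n => by
    unfold ca
    split_ifs
    · exact le_rfl
    · positivity
  have hK : Tendsto (fun n : ℕ => ca S.rho n * (n : ℝ) ^ (7 / 2 : ℝ)) atTop (𝓝 L) := by
    refine hr.congr' ?_
    filter_upwards [eventually_ge_atTop 1] with n hn
    have hn0 : (0 : ℝ) < n := by exact_mod_cast hn
    have h1 : S.r n * S.rho ^ n = (n : ℝ) * ca S.rho n := (ca_eq S.rho n).symm
    have h2 : (n : ℝ) ^ (7 / 2 : ℝ) = (n : ℝ) * (n : ℝ) ^ (5 / 2 : ℝ) := by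
      rw [show (7 / 2 : ℝ) = 1 + 5 / 2 by norm_num, Real.rpow_add hn0, Real.rpow_one]
    rw [h1, h2]
    ring
  have hg := exp_seq (by norm_num : (2 : ℝ) < 7 / 2) ha hK (g := ga S.rho)
    (by simp [ga, g_zero]) (ga_rec S.rho)
  refine ⟨L * ∑' n, ga S.rho n, ?_, hg.2.2⟩
  have h5 : 1 ≤ ∑' n, ga S.rho n := by
    have h6 := hg.1.le_tsum 0 (fun n _ => hg.2.1 n)
    simpa [ga, g_zero] using h6
  positivity

/-- The growth constant. -/
theorem gamma_eq {x0 : ℝ} (hx0 : 0 < x0) (hfin : egf bE (.ofReal x0) ≠ ⊤)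
    {h : ℂ → ℂ} {a0 a2 a3 : ℝ}
    (loc : ∀ᶠ u in 𝓝[ball (0 : ℂ) x0] (x0 : ℂ), fn bb u = h (sq (u / x0)))
    (t3 : T3 h a0 a2 a3) (kap : 0 < 1 + a2) (ha3 : a3 ≠ 0) {γ : ℝ}
    (hγ : Tendsto (fun n : ℕ => ((P512.g n : ℝ) / n.factorial) ^ (1 / (n : ℝ))) atTop (𝓝 γ)) :
    γ = Real.exp (fr bb x0) / x0 := by
  obtain ⟨K, hK, hT⟩ := asymp hx0 hfin loc t3 kap ha3
  set ρ : ℝ := x0 * Real.exp (-fr bb x0) with hρ
  have hρ0 : 0 < ρ := by positivity
  have h1 : Tendsto (fun n : ℕ => ((P512.g n : ℝ) / n.factorial * ρ ^ n *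
      (n : ℝ) ^ (7 / 2 : ℝ)) ^ (1 / (n : ℝ))) atTop (𝓝 1) := by
    have h2 := hT.rpow (tendsto_one_div_atTop_nhds_zero_nat) (Or.inl hK.ne')
    simpa using h2
  have h3 : Tendsto (fun n : ℕ => ((P512.g n : ℝ) / n.factorial) ^ (1 / (n : ℝ)) * ρ *
      ((n : ℝ) ^ (7 / 2 : ℝ)) ^ (1 / (n : ℝ))) atTop (𝓝 (γ * ρ * 1)) :=
    (hγ.mul_const ρ).mul root_pow_tendsto
  have h4 : (fun n : ℕ => ((P512.g n : ℝ) / n.factorial * ρ ^ n *
      (n : ℝ) ^ (7 / 2 : ℝ)) ^ (1 / (n : ℝ))) =ᶠ[atTop]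
      fun n : ℕ => ((P512.g n : ℝ) / n.factorial) ^ (1 / (n : ℝ)) * ρ *
      ((n : ℝ) ^ (7 / 2 : ℝ)) ^ (1 / (n : ℝ)) := by
    filter_upwards [eventually_ge_atTop 1] with n hn
    have hn0 : n ≠ 0 := by omega
    rw [Real.mul_rpow (by positivity) (by positivity), Real.mul_rpow (by positivity)
      (by positivity), one_div, Real.pow_rpow_inv_natCast hρ0.le hn0]
  have h5 : γ * ρ * 1 = 1 := tendsto_nhds_unique h3 (h1.congr' h4)
  rw [mul_one, hρ, Real.exp_neg] at h5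
  have h6 := Real.exp_pos (fr bb x0)
  field_simp at h5 ⊢
  linarith

end K5T
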