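import Pool.Agent.Lib.K5T.Defs

/-!
# K5T.Ser: power series with nonnegative coefficients

`fn a z = ∑' n, a n z^n`, `fr a x` the same on `ℝ`; `a n ≥ 0`, `∑ a n X^n` converges, `X > 0`. Everything by comparison with `∑ a n X^n`: `Summable.of_norm_bounded`, `norm_tsum_le_tsum_norm`, `Summable.tsum_le_tsum`, `continuousOn_tsum` (closed ball), `differentiableOn_tsum_of_summable_norm` (open
ball) or power series. `deriv_le`: for `‖z‖ < X`, `z * deriv (fn a) z = ∑ n a n z^n` (`hasDerivAt_tsum...` or `HasFPowerSeriesOnBall.deriv`-type lemmas; the series of the derivatives is dominated on `ball 0 s` for every `s < X`).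
`norm_lt`: `‖fn a z‖ < fr a X` for `‖z‖ = X`, `z ≠ X` if `a 1, a 2 > 0`: `‖a 1 z + a 2 z^2‖ < a 1 X + a 2 X^2`, since equality would force `z` and `z^2` to have the same direction, so `z / X = 1` (e.g. `‖a 1 + a 2 z‖ < a 1 + a 2 X`: square both sides, `z.re < X`);
for `‖z‖ < X` use `a 1 > 0`: `‖z‖ < X`.
-/

namespace K5T

open Filter Topology Metric Asymptotics

section

variable {a : ℕ → ℝ} {X : ℝ}

theorem fn_ofReal (a : ℕ → ℝ) (x : ℝ) : fn a (x : ℂ) = (fr a x : ℂ) := by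
  unfold fn fr
  rw [Complex.ofReal_tsum]
  refine tsum_congr fun n => ?_
  push_cast
  rfl

theorem summable_fr (ha : ∀ n, 0 ≤ a n) (hs : Summable (fun n : ℕ => a n * X ^ n)) {x : ℝ}
    (hx : 0 ≤ x) (hxX : x ≤ X) : Summable (fun n : ℕ => a n * x ^ n) :=
  Summable.of_nonneg_of_le (fun n => mul_nonneg (ha n) (pow_nonneg hx n))
    (fun n => mul_le_mul_of_nonneg_left (pow_le_pow_left₀ hx hxX n) (ha n)) hs

private theorem norm_term (ha : ∀ n, 0 ≤ a n) (z : ℂ) (n : ℕ) :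
    ‖(a n : ℂ) * z ^ n‖ = a n * ‖z‖ ^ n := by
  rw [norm_mul, norm_pow, Complex.norm_real, Real.norm_eq_abs, abs_of_nonneg (ha n)]

private theorem norm_term_le (ha : ∀ n, 0 ≤ a n) {z : ℂ} (hz : ‖z‖ ≤ X) (n : ℕ) :
    ‖(a n : ℂ) * z ^ n‖ ≤ a n * X ^ n := by
  rw [norm_term ha]
  exact mul_le_mul_of_nonneg_left (pow_le_pow_left₀ (norm_nonneg z) hz n) (ha n)

theorem hasSum_fn (ha : ∀ n, 0 ≤ a n) (hs : Summable (fun n : ℕ => a n * X ^ n)) {z : ℂ}
    (hz : ‖z‖ ≤ X) : HasSum (fun n : ℕ => (a n : ℂ) * z ^ n) (fn a z) :=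
  (Summable.of_norm_bounded hs (norm_term_le ha hz)).hasSum

theorem norm_fn_le (ha : ∀ n, 0 ≤ a n) (hs : Summable (fun n : ℕ => a n * X ^ n)) {z : ℂ}
    (hz : ‖z‖ ≤ X) : ‖fn a z‖ ≤ fr a ‖z‖ := by
  have h1 : Summable (fun n : ℕ => ‖(a n : ℂ) * z ^ n‖) := by
    simp only [norm_term ha]
    exact summable_fr ha hs (norm_nonneg z) hz
  refine (norm_tsum_le_tsum_norm h1).trans (le_of_eq ?_)
  exact tsum_congr (norm_term ha z)

theorem fr_nonneg (ha : ∀ n, 0 ≤ a n) {x : ℝ} (hx : 0 ≤ x) : 0 ≤ fr a x :=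
  tsum_nonneg fun n => mul_nonneg (ha n) (pow_nonneg hx n)

theorem fr_mono (ha : ∀ n, 0 ≤ a n) (hs : Summable (fun n : ℕ => a n * X ^ n)) {x y : ℝ}
    (hx : 0 ≤ x) (hxy : x ≤ y) (hy : y ≤ X) : fr a x ≤ fr a y :=
  (summable_fr ha hs hx (hxy.trans hy)).tsum_le_tsum
    (fun n => mul_le_mul_of_nonneg_left (pow_le_pow_left₀ hx hxy n) (ha n))
    (summable_fr ha hs (hx.trans hxy) hy)

theorem fr_lt (ha : ∀ n, 0 ≤ a n) (h1 : 0 < a 1) (hs : Summable (fun n : ℕ => a n * X ^ n))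
    {x y : ℝ} (hx : 0 ≤ x) (hxy : x < y) (hy : y ≤ X) : fr a x < fr a y := by
  refine Summable.tsum_lt_tsum (i := 1)
    (fun n => mul_le_mul_of_nonneg_left (pow_le_pow_left₀ hx hxy.le n) (ha n)) ?_
    (summable_fr ha hs hx (hxy.le.trans hy)) (summable_fr ha hs (hx.trans hxy.le) hy)
  rw [pow_one, pow_one]
  exact mul_lt_mul_of_pos_left hxy h1

private theorem norm_two {a1 a2 Y : ℝ} (h1 : 0 < a1) (h2 : 0 < a2) (hY : 0 < Y) {z : ℂ} (hz : ‖z‖ = Y)
    (hne : z ≠ Y) : ‖(a1 : ℂ) * z + (a2 : ℂ) * z ^ 2‖ < a1 * Y + a2 * Y ^ 2 := by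
  have hre : z.re < Y := by
    have h3 : z.re ≤ Y := by
      rw [← hz]
      exact Complex.re_le_norm z
    refine lt_of_le_of_ne h3 (fun h4 => hne ?_)
    have h5 : z.re * z.re + z.im * z.im = Y * Y := by
      rw [← Complex.normSq_apply, Complex.normSq_eq_norm_sq, hz, pow_two]
    rw [h4] at h5
    have h6 : z.im = 0 := by
      have : z.im * z.im = 0 := by linarith
      exact mul_self_eq_zero.mp this
    exact Complex.ext (by rw [h4, Complex.ofReal_re]) (by rw [h6, Complex.ofReal_im])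
  have e1 : (a1 : ℂ) * z + (a2 : ℂ) * z ^ 2 = z * ((a1 : ℂ) + (a2 : ℂ) * z) := by ring
  have e2 : ‖(a1 : ℂ) + (a2 : ℂ) * z‖ < a1 + a2 * Y := by
    have h3 : ‖(a1 : ℂ) + (a2 : ℂ) * z‖ ^ 2 < (a1 + a2 * Y) ^ 2 := by
      have h5 : z.re * z.re + z.im * z.im = Y * Y := by
        rw [← Complex.normSq_apply, Complex.normSq_eq_norm_sq, hz, pow_two]
      rw [← Complex.normSq_eq_norm_sq, Complex.normSq_apply]
      have h6 : ((a1 : ℂ) + (a2 : ℂ) * z).re = a1 + a2 * z.re := by simp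
      have h7 : ((a1 : ℂ) + (a2 : ℂ) * z).im = a2 * z.im := by simp
      rw [h6, h7]
      have h8 : 0 < a1 * a2 := mul_pos h1 h2
      have h9 : a1 * a2 * z.re < a1 * a2 * Y := mul_lt_mul_of_pos_left hre h8
      have h10 : (a1 + a2 * z.re) * (a1 + a2 * z.re) + a2 * z.im * (a2 * z.im) =
          a1 ^ 2 + 2 * (a1 * a2 * z.re) + a2 ^ 2 * (z.re * z.re + z.im * z.im) := by ring
      rw [h10, h5]
      have h11 : (a1 + a2 * Y) ^ 2 = a1 ^ 2 + 2 * (a1 * a2 * Y) + a2 ^ 2 * (Y * Y) := by ring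
      rw [h11]
      linarith
    exact lt_of_pow_lt_pow_left₀ 2 (by positivity) h3
  rw [e1, norm_mul, hz]
  calc Y * ‖(a1 : ℂ) + (a2 : ℂ) * z‖ < Y * (a1 + a2 * Y) := mul_lt_mul_of_pos_left e2 hY
    _ = a1 * Y + a2 * Y ^ 2 := by ring

theorem norm_lt (ha : ∀ n, 0 ≤ a n) (h1 : 0 < a 1) (h2 : 0 < a 2)
    (hs : Summable (fun n : ℕ => a n * X ^ n)) (hX : 0 < X) {z : ℂ} (hz : ‖z‖ ≤ X)
    (hne : z ≠ X) : ‖fn a z‖ < fr a X := by
  rcases hz.lt_or_eq with hlt | heq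
  · exact (norm_fn_le ha hs hz).trans_lt (fr_lt ha h1 hs (norm_nonneg z) hlt le_rfl)
  have hsz : Summable (fun n : ℕ => (a n : ℂ) * z ^ n) := (hasSum_fn ha hs hz).summable
  have hsn : Summable (fun n : ℕ => ‖(a n : ℂ) * z ^ n‖) := by
    simp only [norm_term ha, heq]
    exact hs
  have e1 := hsz.sum_add_tsum_subtype_compl ({1, 2} : Finset ℕ)
  have e2 := hs.sum_add_tsum_subtype_compl ({1, 2} : Finset ℕ)
  have h12 : (1 : ℕ) ∉ ({2} : Finset ℕ) := by decide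
  rw [Finset.sum_insert h12, Finset.sum_singleton] at e1 e2
  have e3 : ‖∑' n : {n // n ∉ ({1, 2} : Finset ℕ)}, (a n : ℂ) * z ^ (n : ℕ)‖ ≤
      ∑' n : {n // n ∉ ({1, 2} : Finset ℕ)}, a n * X ^ (n : ℕ) := by
    have hsub : Summable (fun n : {n // n ∉ ({1, 2} : Finset ℕ)} => ‖(a n : ℂ) * z ^ (n : ℕ)‖) :=
      hsn.subtype {n | n ∉ ({1, 2} : Finset ℕ)}
    refine (norm_tsum_le_tsum_norm hsub).trans (le_of_eq ?_)
    refine tsum_congr fun n => ?_
    rw [norm_term ha, heq]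
  have e4 := norm_two h1 h2 hX heq hne
  have e5 : ‖fn a z‖ ≤ ‖(a 1 : ℂ) * z + (a 2 : ℂ) * z ^ 2‖ +
      ‖∑' n : {n // n ∉ ({1, 2} : Finset ℕ)}, (a n : ℂ) * z ^ (n : ℕ)‖ := by
    have : fn a z = ((a 1 : ℂ) * z + (a 2 : ℂ) * z ^ 2) +
        ∑' n : {n // n ∉ ({1, 2} : Finset ℕ)}, (a n : ℂ) * z ^ (n : ℕ) := by
      rw [pow_one] at e1
      exact e1.symm
    rw [this]
    exact norm_add_le _ _
  have e6 : fr a X = (a 1 * X + a 2 * X ^ 2) +
      ∑' n : {n // n ∉ ({1, 2} : Finset ℕ)}, a n * X ^ (n : ℕ) := by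
    rw [pow_one] at e2
    exact e2.symm
  rw [e6]
  linarith

theorem continuousOn_fn (ha : ∀ n, 0 ≤ a n) (hs : Summable (fun n : ℕ => a n * X ^ n)) :
    ContinuousOn (fn a) (closedBall 0 X) := by
  refine continuousOn_tsum (fun n => (continuous_const.mul (continuous_pow n)).continuousOn) hs
    (fun n z hz => norm_term_le ha ?_ n)
  rwa [mem_closedBall, dist_zero_right] at hz

theorem continuousOn_fr (ha : ∀ n, 0 ≤ a n) (hs : Summable (fun n : ℕ => a n * X ^ n)) :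
    ContinuousOn (fr a) (Set.Icc 0 X) := by
  refine continuousOn_tsum (fun n => (continuous_const.mul (continuous_pow n)).continuousOn) hs
    (fun n x hx => ?_)
  rw [Real.norm_eq_abs, abs_of_nonneg (mul_nonneg (ha n) (pow_nonneg hx.1 n))]
  exact mul_le_mul_of_nonneg_left (pow_le_pow_left₀ hx.1 hx.2 n) (ha n)

theorem analyticAt_fn (ha : ∀ n, 0 ≤ a n) (hs : Summable (fun n : ℕ => a n * X ^ n)) {z : ℂ}
    (hz : ‖z‖ < X) : AnalyticAt ℂ (fn a) z := by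
  have hd : DifferentiableOn ℂ (fn a) (ball 0 X) := by
    refine Complex.differentiableOn_tsum_of_summable_norm hs (fun n => ?_) isOpen_ball
      (fun n w hw => norm_term_le ha ?_ n)
    · exact ((differentiable_id.pow n).const_mul _).differentiableOn
    · rw [mem_ball, dist_zero_right] at hw
      exact hw.le
  refine hd.analyticAt (isOpen_ball.mem_nhds ?_)
  rwa [mem_ball, dist_zero_right]

theorem summable_deriv (ha : ∀ n, 0 ≤ a n) (hs : Summable (fun n : ℕ => a n * X ^ n)) {x : ℝ}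
    (hx : 0 ≤ x) (hxX : x < X) : Summable (fun n : ℕ => (n : ℝ) * a n * x ^ n) := by
  have hX : 0 < X := hx.trans_lt hxX
  have hr0 : 0 ≤ x / X := div_nonneg hx hX.le
  have hr1 : x / X < 1 := (div_lt_one hX).mpr hxX
  obtain ⟨C, hC⟩ := (tendsto_self_mul_const_pow_of_lt_one hr0 hr1).bddAbove_range
  have hC' : ∀ n : ℕ, (n : ℝ) * (x / X) ^ n ≤ C := fun n => hC ⟨n, rfl⟩
  refine Summable.of_nonneg_of_le (fun n => mul_nonneg (mul_nonneg (Nat.cast_nonneg n) (ha n))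
    (pow_nonneg hx n)) (fun n => ?_) (hs.mul_left C)
  have e : (n : ℝ) * a n * x ^ n = ((n : ℝ) * (x / X) ^ n) * (a n * X ^ n) := by
    rw [div_pow]
    field_simp
  rw [e]
  exact mul_le_mul_of_nonneg_right (hC' n) (mul_nonneg (ha n) (pow_nonneg hX.le n))

theorem deriv_le (ha : ∀ n, 0 ≤ a n) (hs : Summable (fun n : ℕ => a n * X ^ n)) {z : ℂ}
    (hz : ‖z‖ < X) : ‖z * deriv (fn a) z‖ ≤ ∑' n : ℕ, (n : ℝ) * a n * ‖z‖ ^ n := by
  have hzb : z ∈ ball (0 : ℂ) X := by rwa [mem_ball, dist_zero_right]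
  have h1 : HasSum (fun n : ℕ => deriv (fun w : ℂ => (a n : ℂ) * w ^ n) z) (deriv (fn a) z) := by
    refine Complex.hasSum_deriv_of_summable_norm (F := fun (n : ℕ) (w : ℂ) => (a n : ℂ) * w ^ n)
      hs (fun n => ?_) isOpen_ball (fun n w hw => norm_term_le ha ?_ n) hzb
    · exact ((differentiable_id.pow n).const_mul _).differentiableOn
    · rw [mem_ball, dist_zero_right] at hw
      exact hw.le
  have h2 : ∀ n : ℕ, z * deriv (fun w : ℂ => (a n : ℂ) * w ^ n) z = (n : ℂ) * (a n : ℂ) * z ^ n := by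
    intro n
    have h3 : HasDerivAt (fun w : ℂ => (a n : ℂ) * w ^ n) ((a n : ℂ) * ((n : ℂ) * z ^ (n - 1))) z :=
      (hasDerivAt_pow n z).const_mul _
    rw [h3.deriv]
    rcases n with _ | n
    · simp
    · rw [Nat.add_sub_cancel, pow_succ]
      ring
  have h3 := h1.mul_left z
  simp only [h2] at h3
  have h4 : ∀ n : ℕ, ‖(n : ℂ) * (a n : ℂ) * z ^ n‖ = (n : ℝ) * a n * ‖z‖ ^ n := by
    intro n
    rw [norm_mul, norm_mul, norm_pow, Complex.norm_natCast, Complex.norm_real, Real.norm_eq_abs,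
      abs_of_nonneg (ha n)]
  rw [← h3.tsum_eq]
  have h5 : Summable (fun n : ℕ => ‖(n : ℂ) * (a n : ℂ) * z ^ n‖) := by
    simp only [h4]
    exact summable_deriv ha hs (norm_nonneg z) hz
  refine (norm_tsum_le_tsum_norm h5).trans (le_of_eq ?_)
  exact tsum_congr h4

end

end K5T
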