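import Pool.Agent.Lib.K5T.Defs

/-!
# K5T.Loc: functions of `√(1 - w)` near `w = 1`

`H := {w : ℂ | w.re < 1}`. For `w ∈ H` the number `1 - w` is in the slit plane (`Complex.mem_slitPlane_iff`), `sq w ≠ 0`, `sq w ^ 2 = 1 - w` (`Complex.cpow_nat_inv_pow` or `← Complex.cpow_nat_mul`), `HasDerivAt sq (-1 / (2 * sq w)) w`; and `sq w → 0` for `w → 1`.
1. `deriv_step`: let `L` be analytic at `0`, `L1 Z := -((k + 2) * L Z + Z * deriv L Z) / 2`, analytic at `0`. For `w ∈ H` near `1`, `L` is differentiable at `sq w` (`AnalyticAt.eventually_analyticAt`), the chain rule gives the derivative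
   `(k + 2) Z^(k+1) Z' L + Z^(k+2) L' Z'` with `Z = sq w`, `Z' = -1 / (2 Z)`, which is `Z^k L1(Z)`.
2. `taylor`: `h(Z) = a0 + a2 Z^2 + a3 Z^3 + a4 Z^4 + a5 Z^5 + Z^6 L(Z)` near `0` with `L` analytic: from the power series `h(Z) = ∑ p_n Z^n` (`AnalyticAt`, `hasFPowerSeriesAt_iff'`): `T3.exp` gives `p_0 = a0`, `p_1 = 0`, `p_2 = a2`, `p_3 = a3`; or iterate six times: if `h` is
   analytic at `0` then `h(Z) = h(0) + Z h1(Z)` with `h1 = dslope h 0` analytic (`AnalyticAt.dslope` or `HasFPowerSeriesAt.has_fpower_series_dslope_fslope`), and compare with `T3.exp`.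
3. `loc_bound`: by 2 the function is `a0 + a2 (1 - w) + a4 (1 - w)^2 + sq w ^ 6 * L (sq w)` for `w ∈ H` near `1` (an open condition in `H`: `H` is open, so the equality holds near `w` and the iterated derivatives agree); three applications of 1 (`k = 4, 2, 0`):
   the third derivative is `L3 (sq w)` with `L3` analytic at `0`, hence bounded near `w = 1`.
-/

namespace K5T

open Filter Topology Metric Asymptotics

theorem sq_sq {w : ℂ} : sq w ^ 2 = 1 - w := by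
  unfold sq
  rw [one_div]
  exact Complex.cpow_ofNat_inv_pow (1 - w) 2

private theorem LocAux.slit {w : ℂ} (hw : w.re < 1) : 1 - w ∈ Complex.slitPlane := by
  rw [Complex.mem_slitPlane_iff]
  left
  simp only [Complex.sub_re, Complex.one_re]
  linarith

private theorem LocAux.sq_ne {w : ℂ} (hw : w.re < 1) : sq w ≠ 0 := by
  intro h
  have h1 := sq_sq (w := w)
  rw [h] at h1
  have h2 := LocAux.slit hw
  rw [← h1] at h2
  exact Complex.slitPlane_ne_zero h2 (by ring)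

theorem sq_hasDerivAt {w : ℂ} (hw : w.re < 1) : HasDerivAt sq (-1 / (2 * sq w)) w := by
  have h1 : HasDerivAt (fun w : ℂ => 1 - w) (-1) w := by
    simpa using (hasDerivAt_id w).const_sub 1
  have h2 := h1.cpow_const (c := (1 / 2 : ℂ)) (LocAux.slit hw)
  have hne := LocAux.sq_ne hw
  have h0 : (1 - w) ≠ 0 := Complex.slitPlane_ne_zero (LocAux.slit hw)
  have h3 : (1 - w) ^ ((1 / 2 : ℂ) - 1) = sq w / (1 - w) := by
    rw [Complex.cpow_sub _ _ h0, Complex.cpow_one]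
    rfl
  have h4 : (1 / 2 : ℂ) * (1 - w) ^ ((1 / 2 : ℂ) - 1) * -1 = -1 / (2 * sq w) := by
    rw [h3, ← sq_sq (w := w)]
    field_simp
  rw [← h4]
  exact h2

theorem sq_tendsto : Tendsto sq (𝓝 1) (𝓝 0) := by
  rw [tendsto_zero_iff_norm_tendsto_zero]
  have h1 : ∀ w : ℂ, ‖sq w‖ = Real.sqrt ‖1 - w‖ := by
    intro w
    rw [← sq_sq, norm_pow, Real.sqrt_sq (norm_nonneg _)]
  have h2 : Tendsto (fun w : ℂ => Real.sqrt ‖1 - w‖) (𝓝 1) (𝓝 (Real.sqrt ‖(1 : ℂ) - 1‖)) := by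
    apply Continuous.tendsto
    fun_prop
  have h3 : Real.sqrt ‖(1 : ℂ) - 1‖ = 0 := by simp
  rw [h3] at h2
  exact h2.congr (fun w => (h1 w).symm)

theorem sq_re_pos {w : ℂ} (hw : w.re < 1) : 0 < (sq w).re := by
  have h0 : (1 - w) ≠ 0 := Complex.slitPlane_ne_zero (LocAux.slit hw)
  have hre : 0 < (1 - w).re := by
    simp only [Complex.sub_re, Complex.one_re]
    linarith
  have harg : |(1 - w).arg| < Real.pi / 2 :=
    Complex.abs_arg_lt_pi_div_two_iff.2 (Or.inl hre)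
  have h1 : sq w = Complex.exp (Complex.log (1 - w) * (1 / 2)) := by
    unfold sq
    rw [Complex.cpow_def_of_ne_zero h0]
  rw [h1, Complex.exp_re]
  apply mul_pos (Real.exp_pos _)
  have h2 : (Complex.log (1 - w) * (1 / 2)).im = (1 - w).arg / 2 := by
    rw [show (1 / 2 : ℂ) = ((1 / 2 : ℝ) : ℂ) by push_cast; ring, Complex.im_mul_ofReal,
      Complex.log_im]
    ring
  rw [h2]
  apply Real.cos_pos_of_mem_Ioo
  rw [abs_lt] at harg
  constructor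
  · linarith [harg.1, Real.pi_pos]
  · linarith [harg.2, Real.pi_pos]

theorem deriv_step {L : ℂ → ℂ} (hL : AnalyticAt ℂ L 0) (k : ℕ) :
    ∃ L1 : ℂ → ℂ, AnalyticAt ℂ L1 0 ∧ ∀ᶠ w in 𝓝[{w : ℂ | w.re < 1}] 1,
      HasDerivAt (fun w => sq w ^ (k + 2) * L (sq w)) (sq w ^ k * L1 (sq w)) w := by
  refine ⟨fun Z => -((k + 2) * L Z + Z * deriv L Z) / 2, ?_, ?_⟩
  · have h1 := hL.deriv
    have h2 : AnalyticAt ℂ (fun Z : ℂ => ((k : ℂ) + 2) * L Z + Z * deriv L Z) 0 :=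
      (analyticAt_const.mul hL).add (analyticAt_id.mul h1)
    have h3 : AnalyticAt ℂ (fun Z : ℂ => (-((k + 2) * L Z + Z * deriv L Z)) * (1 / 2)) 0 :=
      h2.neg.mul analyticAt_const
    refine h3.congr (Filter.Eventually.of_forall (fun Z => ?_))
    ring
  · have h1 : ∀ᶠ w in 𝓝[{w : ℂ | w.re < 1}] 1, AnalyticAt ℂ L (sq w) :=
      (sq_tendsto.eventually hL.eventually_analyticAt).filter_mono nhdsWithin_le_nhds
    filter_upwards [h1, self_mem_nhdsWithin] with w hw1 hw2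
    have hw : w.re < 1 := hw2
    have hne := LocAux.sq_ne hw
    have hs := sq_hasDerivAt hw
    have hLs : HasDerivAt (fun w => L (sq w)) (deriv L (sq w) * (-1 / (2 * sq w))) w :=
      HasDerivAt.comp w hw1.differentiableAt.hasDerivAt hs
    have h2 := (hs.pow (k + 2)).mul hLs
    have e1 : k + 2 - 1 = k + 1 := by omega
    have e2 : sq w ^ k * (-((k + 2) * L (sq w) + sq w * deriv L (sq w)) / 2) =
        ((k + 2 : ℕ) : ℂ) * sq w ^ (k + 2 - 1) * (-1 / (2 * sq w)) * L (sq w) +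
          sq w ^ (k + 2) * (deriv L (sq w) * (-1 / (2 * sq w))) := by
      rw [e1]
      push_cast
      field_simp
      ring
    rw [e2]
    exact h2

private theorem LocAux.slope {f : ℂ → ℂ} (hf : AnalyticAt ℂ f 0) :
    ∃ (c : ℂ) (g : ℂ → ℂ), AnalyticAt ℂ g 0 ∧ ∀ Z, f Z = c + Z * g Z := by
  obtain ⟨p, hp⟩ := hf
  refine ⟨f 0, dslope f 0, ⟨_, hp.has_fpower_series_dslope_fslope⟩, fun Z => ?_⟩
  have h1 := sub_smul_dslope f 0 Z
  rw [smul_eq_mul, sub_zero] at h1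
  rw [h1]
  ring

private theorem LocAux.step {q : ℂ → ℂ} {A : ℂ} {n : ℕ} (hq : ContinuousAt q 0)
    (h : (fun Z => A + Z * q Z) =O[𝓝[≠] 0] (fun Z : ℂ => Z ^ (n + 1))) :
    A = 0 ∧ q =O[𝓝[≠] 0] (fun Z : ℂ => Z ^ n) := by
  have hA : A = 0 := by
    have t1 : Tendsto (fun Z : ℂ => Z ^ (n + 1)) (𝓝[≠] 0) (𝓝 0) := by
      have : Tendsto (fun Z : ℂ => Z ^ (n + 1)) (𝓝 0) (𝓝 (0 ^ (n + 1))) :=
        (continuous_pow (n + 1)).tendsto 0
      rw [zero_pow (Nat.succ_ne_zero n)] at this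
      exact this.mono_left nhdsWithin_le_nhds
    have t2 := h.trans_tendsto t1
    have t3 : Tendsto (fun Z : ℂ => A + Z * q Z) (𝓝[≠] 0) (𝓝 (A + 0 * q 0)) :=
      (tendsto_const_nhds.add (tendsto_id.mul hq.tendsto)).mono_left nhdsWithin_le_nhds
    have := tendsto_nhds_unique t3 t2
    simpa using this
  refine ⟨hA, ?_⟩
  subst hA
  have h1 : (fun Z : ℂ => Z * q Z) =O[𝓝[≠] 0] (fun Z : ℂ => Z * Z ^ n) := by
    refine (h.congr (fun Z => by ring) (fun Z => by ring))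
  have h2 : (fun Z : ℂ => Z⁻¹ * (Z * q Z)) =O[𝓝[≠] 0] (fun Z : ℂ => Z⁻¹ * (Z * Z ^ n)) :=
    (isBigO_refl (fun Z : ℂ => Z⁻¹) (𝓝[≠] 0)).mul h1
  refine h2.congr' ?_ ?_
  · filter_upwards [self_mem_nhdsWithin] with Z hZ
    have : Z ≠ 0 := hZ
    field_simp
  · filter_upwards [self_mem_nhdsWithin] with Z hZ
    have : Z ≠ 0 := hZ
    field_simp

theorem T3.taylor {h : ℂ → ℂ} {a0 a2 a3 : ℂ} (hh : T3 h a0 a2 a3) :
    ∃ (a4 a5 : ℂ) (L : ℂ → ℂ), AnalyticAt ℂ L 0 ∧ ∀ᶠ Z in 𝓝 (0 : ℂ),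
      h Z = a0 + a2 * Z ^ 2 + a3 * Z ^ 3 + a4 * Z ^ 4 + a5 * Z ^ 5 + Z ^ 6 * L Z := by
  obtain ⟨c0, h1, k1, e0⟩ := LocAux.slope hh.an
  obtain ⟨c1, h2, k2, e1⟩ := LocAux.slope k1
  obtain ⟨c2, h3, k3, e2⟩ := LocAux.slope k2
  obtain ⟨c3, h4, k4, e3⟩ := LocAux.slope k3
  obtain ⟨c4, h5, k5, e4⟩ := LocAux.slope k4
  obtain ⟨c5, h6, k6, e5⟩ := LocAux.slope k5
  have hexp := hh.exp.mono (nhdsWithin_le_nhds (s := {0}ᶜ))
  -- subtract the part of order four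
  have hO : (fun Z : ℂ => Z ^ 4 * h4 Z) =O[𝓝[≠] 0] (fun Z : ℂ => Z ^ 4) := by
    have b1 : h4 =O[𝓝[≠] 0] (fun _ : ℂ => (1 : ℂ)) :=
      (k4.continuousAt.tendsto.isBigO_one ℂ).mono nhdsWithin_le_nhds
    simpa using (isBigO_refl (fun Z : ℂ => Z ^ 4) (𝓝[≠] 0)).mul b1
  have hD : (fun Z : ℂ => (c0 - a0) + Z * (c1 + Z * ((c2 - a2) + Z * ((c3 - a3) + Z * 0))))
      =O[𝓝[≠] 0] (fun Z : ℂ => Z ^ (3 + 1)) := by
    refine (hexp.sub hO).congr (fun Z => ?_) (fun Z => rfl)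
    rw [e0 Z, e1 Z, e2 Z, e3 Z]
    ring
  obtain ⟨r0, hD⟩ := LocAux.step (by fun_prop) hD
  obtain ⟨r1, hD⟩ := LocAux.step (n := 2) (by fun_prop) hD
  obtain ⟨r2, hD⟩ := LocAux.step (n := 1) (by fun_prop) hD
  obtain ⟨r3, hD⟩ := LocAux.step (n := 0) (by fun_prop) hD
  have q0 : c0 = a0 := sub_eq_zero.1 r0
  have q2 : c2 = a2 := sub_eq_zero.1 r2
  have q3 : c3 = a3 := sub_eq_zero.1 r3
  refine ⟨c4, c5, h6, k6, Filter.Eventually.of_forall (fun Z => ?_)⟩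
  rw [e0 Z, e1 Z, e2 Z, e3 Z, e4 Z, e5 Z, q0, r1, q2, q3]
  ring

private theorem LocAux.ev {P : ℂ → Prop} (h : ∀ᶠ w in 𝓝[{w : ℂ | w.re < 1}] 1, P w) :
    ∀ᶠ w in 𝓝[{w : ℂ | w.re < 1}] 1, ∀ᶠ z in 𝓝 w, P z := by
  have ho : IsOpen {w : ℂ | w.re < 1} := isOpen_lt Complex.continuous_re continuous_const
  have h1 := eventually_eventually_nhdsWithin.2 h
  filter_upwards [h1, self_mem_nhdsWithin] with w hw1 hw2
  rwa [ho.nhdsWithin_eq hw2] at hw1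

private theorem LocAux.iter {f f1 f2 f3 : ℂ → ℂ}
    (h1 : ∀ᶠ w in 𝓝[{w : ℂ | w.re < 1}] 1, HasDerivAt f (f1 w) w)
    (h2 : ∀ᶠ w in 𝓝[{w : ℂ | w.re < 1}] 1, HasDerivAt f1 (f2 w) w)
    (h3 : ∀ᶠ w in 𝓝[{w : ℂ | w.re < 1}] 1, HasDerivAt f2 (f3 w) w) :
    ∀ᶠ w in 𝓝[{w : ℂ | w.re < 1}] 1, iteratedDeriv 3 f w = f3 w := by
  have g1 : ∀ᶠ w in 𝓝[{w : ℂ | w.re < 1}] 1, deriv f w = f1 w := h1.mono (fun w h => h.deriv)
  have g2 : ∀ᶠ w in 𝓝[{w : ℂ | w.re < 1}] 1, deriv (deriv f) w = f2 w := by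
    filter_upwards [LocAux.ev g1, h2] with w hw1 hw2
    have e : deriv f =ᶠ[𝓝 w] f1 := hw1
    rw [e.deriv_eq]
    exact hw2.deriv
  filter_upwards [LocAux.ev g2, h3] with w hw1 hw2
  have e : deriv (deriv f) =ᶠ[𝓝 w] f2 := hw1
  rw [iteratedDeriv_succ, iteratedDeriv_succ, iteratedDeriv_one, e.deriv_eq]
  exact hw2.deriv

theorem loc_bound {h : ℂ → ℂ} {a0 a2 a3 : ℂ} (hh : T3 h a0 a2 a3) :
    ∃ (a5 : ℂ) (M : ℝ), ∀ᶠ w in 𝓝[{w : ℂ | w.re < 1}] 1,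
      ‖iteratedDeriv 3 (fun w => h (sq w) - a3 * sq w ^ 3 - a5 * sq w ^ 5) w‖ ≤ M := by
  obtain ⟨a4, a5, L, hL, hT⟩ := hh.taylor
  obtain ⟨L1, hL1, d1⟩ := deriv_step hL 4
  obtain ⟨L2, hL2, d2⟩ := deriv_step hL1 2
  obtain ⟨L3, hL3, d3⟩ := deriv_step hL2 0
  refine ⟨a5, ‖L3 0‖ + 1, ?_⟩
  -- the function near `1`
  have hG : ∀ᶠ w in 𝓝[{w : ℂ | w.re < 1}] 1,
      h (sq w) - a3 * sq w ^ 3 - a5 * sq w ^ 5 =
        a0 + a2 * (1 - w) + a4 * (1 - w) ^ 2 + sq w ^ (4 + 2) * L (sq w) := by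
    filter_upwards [(sq_tendsto.eventually hT).filter_mono nhdsWithin_le_nhds] with w hw
    rw [hw, ← sq_sq (w := w)]
    ring
  have s1 : ∀ᶠ w in 𝓝[{w : ℂ | w.re < 1}] 1,
      HasDerivAt (fun w => h (sq w) - a3 * sq w ^ 3 - a5 * sq w ^ 5)
        (-a2 - 2 * a4 * (1 - w) + sq w ^ (2 + 2) * L1 (sq w)) w := by
    filter_upwards [LocAux.ev hG, d1] with w hw1 hw2
    have p1 : HasDerivAt (fun w : ℂ => 1 - w) (-1) w := by
      simpa using (hasDerivAt_id w).const_sub 1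
    have p2 : HasDerivAt (fun w : ℂ => a0 + a2 * (1 - w) + a4 * (1 - w) ^ 2)
        (-a2 - 2 * a4 * (1 - w)) w := by
      have := ((p1.const_mul a2).const_add a0).add ((p1.pow 2).const_mul a4)
      have e2 : -a2 - 2 * a4 * (1 - w) = a2 * -1 + a4 * ((2 : ℕ) * (1 - w) ^ (2 - 1) * -1) := by
        push_cast
        ring
      rw [e2]
      exact this
    have p3 := p2.add hw2
    have e : (fun w => h (sq w) - a3 * sq w ^ 3 - a5 * sq w ^ 5) =ᶠ[𝓝 w]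
        ((fun w : ℂ => a0 + a2 * (1 - w) + a4 * (1 - w) ^ 2) +
          fun w => sq w ^ (4 + 2) * L (sq w)) := hw1
    exact p3.congr_of_eventuallyEq e
  have s2 : ∀ᶠ w in 𝓝[{w : ℂ | w.re < 1}] 1,
      HasDerivAt (fun w => -a2 - 2 * a4 * (1 - w) + sq w ^ (2 + 2) * L1 (sq w))
        (2 * a4 + sq w ^ (0 + 2) * L2 (sq w)) w := by
    filter_upwards [d2] with w hw2
    have p1 : HasDerivAt (fun w : ℂ => 1 - w) (-1) w := by
      simpa using (hasDerivAt_id w).const_sub 1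
    have p2 : HasDerivAt (fun w : ℂ => -a2 - 2 * a4 * (1 - w)) (2 * a4) w := by
      have := (p1.const_mul (2 * a4)).const_sub (-a2)
      have e2 : -(2 * a4 * -1) = 2 * a4 := by ring
      rw [e2] at this
      exact this
    exact p2.add hw2
  have s3 : ∀ᶠ w in 𝓝[{w : ℂ | w.re < 1}] 1,
      HasDerivAt (fun w => 2 * a4 + sq w ^ (0 + 2) * L2 (sq w)) (sq w ^ 0 * L3 (sq w)) w := by
    filter_upwards [d3] with w hw2
    exact hw2.const_add (2 * a4)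
  have s4 : ∀ᶠ w in 𝓝[{w : ℂ | w.re < 1}] 1, ‖L3 (sq w)‖ ≤ ‖L3 0‖ + 1 := by
    have t1 : Tendsto (fun w => ‖L3 (sq w)‖) (𝓝 1) (𝓝 ‖L3 0‖) :=
      (hL3.continuousAt.tendsto.comp sq_tendsto).norm
    have t2 := t1.eventually (gt_mem_nhds (lt_add_one ‖L3 0‖))
    exact (t2.filter_mono nhdsWithin_le_nhds).mono (fun w h => le_of_lt h)
  filter_upwards [LocAux.iter s1 s2 s3, s4] with w hw1 hw2
  rw [hw1, pow_zero, one_mul]
  exact hw2

end K5T
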