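import Pool.Agent.Lib.K5T.Defs

/-!
# K5T.Bd: a bounded third derivative in the disc, Cauchy estimate

1. `bd_disc`: compactness of `closedBall 0 1` (`IsCompact.induction_on` with the property: there is `M` with `‖iteratedDeriv 3 F w‖ ≤ M` for all `w ∈ ball 0 1 ∩ s`; or `IsCompact.elim_nhds_subcover`): at a point of the open ball `iteratedDeriv 3 F` is continuous (`F` is
   analytic on the open ball: `DifferentiableOn.analyticOnNhd`); at a boundary point `z ≠ 1` `F = g` on `ball 0 1` near `z`; the ball is open, so at such `w` the functions agree near `w` and `iteratedDeriv 3 F w = iteratedDeriv 3 g w`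
   (`Filter.EventuallyEq.iteratedDeriv_eq`), and `iteratedDeriv 3 g` is continuous at `z` (`AnalyticAt.iterated_deriv` or similar), so bounded near `z`.
2. `cauchy_coeff`: `F` has the power series `∑ c n z^n` on the unit ball; `iteratedDeriv k (iteratedDeriv 3 F) 0 = iteratedDeriv (k + 3) F 0 = (k + 3)! c (k + 3)`. For `0 < R < 1`: `Complex.norm_iteratedDeriv_le_of_forall_mem_sphere_norm_le` for `iteratedDeriv 3 F` gives
   `(k + 3)! ‖c (k + 3)‖ ≤ k! M / R^k`; let `R → 1` (`le_of_forall_...` or `ge_of_tendsto`), divide by `k!`.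
-/

namespace K5T

open Filter Topology Metric Asymptotics

namespace BdAux

theorem analytic_iter {f : ℂ → ℂ} {z : ℂ} (h : AnalyticAt ℂ f z) (n : ℕ) :
    AnalyticAt ℂ (iteratedDeriv n f) z := by
  rw [iteratedDeriv_eq_iterate]
  exact h.iterated_deriv n

theorem locally_bounded {f : ℂ → ℂ} {z : ℂ} (h : AnalyticAt ℂ f z) (n : ℕ) :
    ∃ M : ℝ, ∀ᶠ w in 𝓝 z, ‖iteratedDeriv n f w‖ ≤ M := by
  refine ⟨‖iteratedDeriv n f z‖ + 1, ?_⟩
  have h1 := (analytic_iter h n).continuousAt.norm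
  filter_upwards [h1.eventually (gt_mem_nhds (lt_add_one _))] with w hw using hw.le

theorem hasF {F : ℂ → ℂ} {c : ℕ → ℂ}
    (hF : ∀ z : ℂ, ‖z‖ < 1 → HasSum (fun n : ℕ => c n * z ^ n) (F z)) :
    HasFPowerSeriesOnBall F (FormalMultilinearSeries.ofScalars ℂ c) 0 1 := by
  refine ⟨?_, one_pos, ?_⟩
  · refine ENNReal.le_of_forall_nnreal_lt fun r hr => ?_
    have hr1 : (r : ℝ) < 1 := by exact_mod_cast hr
    apply FormalMultilinearSeries.le_radius_of_tendsto (l := 0)
    have h1 : ‖((r : ℝ) : ℂ)‖ < 1 := by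
      rw [Complex.norm_real, Real.norm_eq_abs, abs_of_nonneg (NNReal.coe_nonneg r)]
      exact hr1
    have h2 := (hF _ h1).summable.tendsto_atTop_zero.norm
    rw [norm_zero] at h2
    refine h2.congr fun n => ?_
    rw [norm_mul, norm_pow, Complex.norm_real, Real.norm_eq_abs, abs_of_nonneg (NNReal.coe_nonneg r),
      FormalMultilinearSeries.ofScalars_norm]
  · intro y hy
    have hy1 : ‖y‖ < 1 := by
      rw [mem_eball_zero_iff, ← ofReal_norm, ENNReal.ofReal_lt_one] at hy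
      exact hy
    have h1 := hF y hy1
    rw [zero_add]
    have h2 : (fun n : ℕ => c n * y ^ n) =
        fun n : ℕ => FormalMultilinearSeries.ofScalars ℂ c n (fun _ : Fin n => y) := by
      funext n
      rw [FormalMultilinearSeries.ofScalars_apply_eq, smul_eq_mul]
    rw [h2] at h1
    exact h1

theorem coeff_eq {F : ℂ → ℂ} {c : ℕ → ℂ}
    (h : HasFPowerSeriesOnBall F (FormalMultilinearSeries.ofScalars ℂ c) 0 1) (n : ℕ) :
    iteratedDeriv n F 0 = n.factorial * c n := by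
  have h1 := h.hasFPowerSeriesAt
  have h2 := h1.analyticAt.hasFPowerSeriesAt
  have h3 := h1.eq_formalMultilinearSeries h2
  have h4 : c = fun n => iteratedDeriv n F 0 / n.factorial :=
    FormalMultilinearSeries.ofScalars_series_injective ℂ ℂ h3
  have h5 : (n.factorial : ℂ) ≠ 0 := by exact_mod_cast n.factorial_ne_zero
  rw [h4]
  field_simp

end BdAux

open BdAux

theorem bd_disc {F : ℂ → ℂ} (hF : DifferentiableOn ℂ F (ball 0 1))
    (h1 : ∃ M : ℝ, ∀ᶠ w in 𝓝[ball (0 : ℂ) 1] 1, ‖iteratedDeriv 3 F w‖ ≤ M)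
    (hc : ∀ z : ℂ, ‖z‖ = 1 → z ≠ 1 → Ext 1 F z) :
    ∃ M : ℝ, ∀ w ∈ ball (0 : ℂ) 1, ‖iteratedDeriv 3 F w‖ ≤ M := by
  have key : ∃ M : ℝ, ∀ w ∈ ball (0 : ℂ) 1 ∩ closedBall (0 : ℂ) 1, ‖iteratedDeriv 3 F w‖ ≤ M := by
    refine (isCompact_closedBall (0 : ℂ) 1).induction_on
      (p := fun s => ∃ M : ℝ, ∀ w ∈ ball (0 : ℂ) 1 ∩ s, ‖iteratedDeriv 3 F w‖ ≤ M) ?_ ?_ ?_ ?_
    · exact ⟨0, fun w hw => absurd hw.2 (Set.notMem_empty w)⟩
    · rintro s t hst ⟨M, hM⟩
      exact ⟨M, fun w hw => hM w ⟨hw.1, hst hw.2⟩⟩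
    · rintro s t ⟨M, hM⟩ ⟨M', hM'⟩
      refine ⟨max M M', fun w hw => ?_⟩
      rcases hw.2 with h | h
      · exact (hM w ⟨hw.1, h⟩).trans (le_max_left _ _)
      · exact (hM' w ⟨hw.1, h⟩).trans (le_max_right _ _)
    · intro z hz
      -- it is enough to find a bound near `z`
      suffices h : ∃ M : ℝ, ∀ᶠ w in 𝓝 z, w ∈ ball (0 : ℂ) 1 → ‖iteratedDeriv 3 F w‖ ≤ M by
        obtain ⟨M, hM⟩ := h
        exact ⟨_, mem_nhdsWithin_of_mem_nhds hM, M, fun w hw => hw.2 hw.1⟩
      have hz1 : ‖z‖ ≤ 1 := mem_closedBall_zero_iff.1 hz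
      rcases hz1.lt_or_eq with hlt | heq
      · have ha : AnalyticAt ℂ F z :=
          hF.analyticAt (isOpen_ball.mem_nhds (mem_ball_zero_iff.2 hlt))
        obtain ⟨M, hM⟩ := locally_bounded ha 3
        exact ⟨M, hM.mono fun w hw _ => hw⟩
      · by_cases hz' : z = 1
        · obtain ⟨M, hM⟩ := h1
          rw [hz']
          exact ⟨M, eventually_nhdsWithin_iff.1 hM⟩
        · obtain ⟨g, hg, hFg⟩ := hc z heq hz'
          obtain ⟨M, hM⟩ := locally_bounded hg 3
          refine ⟨M, ?_⟩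
          filter_upwards [hM, (eventually_nhdsWithin_iff.1 hFg).eventually_nhds] with w hw hw' hwb
          have h2 : F =ᶠ[𝓝 w] g := by
            filter_upwards [hw', isOpen_ball.mem_nhds hwb] with v hv hvb using hv hvb
          rw [h2.iteratedDeriv_eq]
          exact hw
  obtain ⟨M, hM⟩ := key
  exact ⟨M, fun w hw => hM w ⟨hw, ball_subset_closedBall hw⟩⟩

theorem cauchy_coeff {F : ℂ → ℂ} {c : ℕ → ℂ}
    (hF : ∀ z : ℂ, ‖z‖ < 1 → HasSum (fun n : ℕ => c n * z ^ n) (F z)) {M : ℝ}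
    (hM : ∀ w ∈ ball (0 : ℂ) 1, ‖iteratedDeriv 3 F w‖ ≤ M) (k : ℕ) :
    ‖c (k + 3)‖ * (((k : ℝ) + 1) * (k + 2) * (k + 3)) ≤ M := by
  have hp := hasF hF
  have han : ∀ z ∈ ball (0 : ℂ) 1, AnalyticAt ℂ F z := by
    intro z hz
    refine hp.analyticOnNhd z ?_
    rw [mem_eball_zero_iff, ← ofReal_norm, ENNReal.ofReal_lt_one]
    exact mem_ball_zero_iff.1 hz
  have hcoef : iteratedDeriv k (iteratedDeriv 3 F) 0 = ((k + 3).factorial : ℂ) * c (k + 3) := by
    rw [← coeff_eq hp (k + 3), iteratedDeriv_eq_iterate, iteratedDeriv_eq_iterate,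
      iteratedDeriv_eq_iterate, Function.iterate_add_apply]
  -- Cauchy's estimate on the circle of radius `R`
  have hR : ∀ R : ℝ, 0 < R → R < 1 →
      ((k + 3).factorial : ℝ) * ‖c (k + 3)‖ * R ^ k ≤ k.factorial * M := by
    intro R hR0 hR1
    have hsub : closedBall (0 : ℂ) R ⊆ ball 0 1 := closedBall_subset_ball hR1
    have hd : DiffContOnCl ℂ (iteratedDeriv 3 F) (ball 0 R) := by
      refine DifferentiableOn.diffContOnCl ?_
      rw [closure_ball _ hR0.ne']
      intro z hz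
      exact (analytic_iter (han z (hsub hz)) 3).differentiableAt.differentiableWithinAt
    have h1 := Complex.norm_iteratedDeriv_le_of_forall_mem_sphere_norm_le k hR0 hd
      (fun z hz => hM z (hsub (sphere_subset_closedBall hz)))
    rw [hcoef, norm_mul, Complex.norm_natCast, le_div_iff₀ (pow_pos hR0 k)] at h1
    exact h1
  have hlim : ((k + 3).factorial : ℝ) * ‖c (k + 3)‖ ≤ k.factorial * M := by
    have ht : Tendsto (fun R : ℝ => ((k + 3).factorial : ℝ) * ‖c (k + 3)‖ * R ^ k) (𝓝[<] 1)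
        (𝓝 (((k + 3).factorial : ℝ) * ‖c (k + 3)‖ * 1 ^ k)) := by
      refine Tendsto.mono_left ?_ nhdsWithin_le_nhds
      exact (Continuous.tendsto (by fun_prop) 1)
    rw [one_pow, mul_one] at ht
    refine le_of_tendsto ht ?_
    have h0 : ∀ᶠ R in 𝓝[<] (1 : ℝ), 0 < R := by
      refine nhdsWithin_le_nhds ?_
      exact lt_mem_nhds one_pos
    filter_upwards [h0, self_mem_nhdsWithin] with R h2 h3 using hR R h2 h3
  have hfac : ((k + 3).factorial : ℝ) = (((k : ℝ) + 1) * (k + 2) * (k + 3)) * k.factorial := by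
    rw [Nat.factorial_succ, Nat.factorial_succ, Nat.factorial_succ]
    push_cast
    ring
  rw [hfac] at hlim
  have hk : (0 : ℝ) < k.factorial := by exact_mod_cast k.factorial_pos
  have h2 : k.factorial * (‖c (k + 3)‖ * (((k : ℝ) + 1) * (k + 2) * (k + 3))) ≤
      k.factorial * M := by
    calc k.factorial * (‖c (k + 3)‖ * (((k : ℝ) + 1) * (k + 2) * (k + 3)))
        = (((k : ℝ) + 1) * (k + 2) * (k + 3)) * k.factorial * ‖c (k + 3)‖ := by ring
      _ ≤ k.factorial * M := hlim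
  exact le_of_mul_le_mul_left h2 hk

end K5T
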