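import Pool.Agent.Lib.K5T.Defs

/-!
# K5T.Bin: the coefficients of `(1 - z)^α`

1. `bin_hasSum`: `one_div_one_sub_cpow_hasFPowerSeriesOnBall_zero` (Mathlib, Analysis/Analytic/Binomial) with `a = -α`: `1 / (1 - z)^(-α) = (1 - z)^α`, coefficients `Ring.choose (n - α - 1) n = ∏_{k < n} (k - α) / (k + 1)` (`Ring.choose` and `descPochhammer`; or
   prove the differential equation). Any other proof is fine, e.g. `one_add_cpow_hasFPowerSeriesOnBall_zero` at `-z`.
2. `bin_tendsto`: `s := -α`. `Real.GammaSeq s n = n^s * n! / ∏_{j ≤ n} (s + j)` (`Real.GammaSeq`, `Real.GammaSeq_tendsto_Gamma`), and `bin α n = (∏_{j ≤ n} (s + j)) / ((s + n) * n!)`, so `bin α n * n^(α+1) = (n / (s + n)) / GammaSeq s n → 1 / Γ(s)`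
   (`Γ(s) ≠ 0`: `Real.Gamma_ne_zero`).
3. `gamma_pos`: `Γ(-3/2) = Γ(1/2) / ((-1/2) (-3/2)) > 0` (`Real.Gamma_add_one` twice, `Real.Gamma_one_half_eq` or `Real.Gamma_pos_of_pos`).
-/

namespace K5T

open Filter Topology Metric Asymptotics

/-- The coefficients of `(1 - z)^α`. -/
noncomputable def bin (α : ℝ) (n : ℕ) : ℝ := ∏ k ∈ Finset.range n, ((k : ℝ) - α) / (k + 1)

namespace BinAux

theorem bin_succ (α : ℝ) (n : ℕ) : bin α (n + 1) = bin α n * (((n : ℝ) - α) / (n + 1)) := by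
  unfold bin
  rw [Finset.prod_range_succ]

theorem choose_step (a : ℂ) (n : ℕ) :
    ((n : ℂ) + 1) * Ring.choose a (n + 1) = (a - n) * Ring.choose a n := by
  have h1 := Ring.descPochhammer_eq_factorial_smul_choose a (n + 1)
  have h2 := Ring.descPochhammer_eq_factorial_smul_choose a n
  rw [descPochhammer_succ_right, Polynomial.smeval_mul, h2] at h1
  have h4 : (Polynomial.X - (n : Polynomial ℤ)).smeval a = a - n := by
    simp [Polynomial.smeval_sub, Polynomial.smeval_natCast]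
  rw [h4, Nat.factorial_succ, nsmul_eq_mul, nsmul_eq_mul, Nat.cast_mul, Nat.cast_add,
    Nat.cast_one] at h1
  have h3 : (n.factorial : ℂ) ≠ 0 := Nat.cast_ne_zero.2 (Nat.factorial_ne_zero n)
  apply mul_left_cancel₀ h3
  linear_combination -h1

theorem bin_eq (α : ℝ) (n : ℕ) : (bin α n : ℂ) = Ring.choose (α : ℂ) n * (-1) ^ n := by
  induction n with
  | zero => simp [bin]
  | succ n ih =>
    have h1 := choose_step (α : ℂ) n
    have h2 : ((n : ℂ) + 1) ≠ 0 := Nat.cast_add_one_ne_zero n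
    rw [bin_succ]
    push_cast
    rw [ih]
    have h3 : Ring.choose (α : ℂ) (n + 1) = ((α : ℂ) - n) * Ring.choose (α : ℂ) n / ((n : ℂ) + 1) := by
      rw [eq_div_iff h2, ← h1]
      ring
    rw [h3, pow_succ]
    field_simp
    ring

end BinAux

open BinAux

theorem bin_hasSum (α : ℝ) {z : ℂ} (hz : ‖z‖ < 1) :
    HasSum (fun n : ℕ => (bin α n : ℂ) * z ^ n) ((1 - z) ^ (α : ℂ)) := by
  have h := (Complex.one_add_cpow_hasFPowerSeriesOnBall_zero (a := (α : ℂ))).hasSum (y := -z) (by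
    rw [← ENNReal.ofReal_one, Metric.eball_ofReal]
    simpa using hz)
  rw [zero_add] at h
  have h1 : (1 + -z : ℂ) = 1 - z := by ring
  rw [h1] at h
  have h2 : (fun n : ℕ => (bin α n : ℂ) * z ^ n) =
      fun n : ℕ => binomialSeries ℂ (α : ℂ) n (fun _ => -z) := by
    funext n
    rw [binomialSeries_apply, List.prod_ofFn, Finset.prod_const, Finset.card_univ, Fintype.card_fin,
      bin_eq, smul_eq_mul, neg_pow z n]
    ring
  rw [h2]
  exact h

theorem bin_tendsto {α : ℝ} (hα : ∀ m : ℕ, α ≠ m) :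
    Tendsto (fun n : ℕ => bin α n * (n : ℝ) ^ (α + 1)) atTop (𝓝 (1 / Real.Gamma (-α))) := by
  have hG : Real.Gamma (-α) ≠ 0 := Real.Gamma_ne_zero (fun m h => hα m (by linarith))
  have h1 : Tendsto (fun n : ℕ => (n : ℝ) / (n + (-α))) atTop (𝓝 1) := tendsto_natCast_div_add_atTop (-α)
  have h2 := h1.div (Real.GammaSeq_tendsto_Gamma (-α)) hG
  refine h2.congr' ?_
  filter_upwards [eventually_gt_atTop 0] with n hn
  have hn' : (0 : ℝ) < n := Nat.cast_pos.2 hn
  have hne : (n : ℝ) + (-α) ≠ 0 := by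
    intro h
    exact hα n (by linarith)
  simp only [Pi.div_apply]
  unfold Real.GammaSeq bin
  rw [Finset.prod_range_succ, Finset.prod_div_distrib]
  have h3 : ∏ k ∈ Finset.range n, ((k : ℝ) + 1) = n.factorial := by
    rw [← Finset.prod_range_add_one_eq_factorial]
    push_cast
    rfl
  have h4 : ∏ j ∈ Finset.range n, (-α + (j : ℝ)) = ∏ j ∈ Finset.range n, ((j : ℝ) - α) := by
    apply Finset.prod_congr rfl
    intro j _
    ring
  rw [h3, h4, Real.rpow_add hn', Real.rpow_one, Real.rpow_neg hn'.le]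
  have h5 : (n.factorial : ℝ) ≠ 0 := Nat.cast_ne_zero.2 (Nat.factorial_ne_zero n)
  have h6 : (n : ℝ) ^ α ≠ 0 := (Real.rpow_pos_of_pos hn' α).ne'
  have h7 : -α + (n : ℝ) ≠ 0 := by rw [add_comm]; exact hne
  have h8 : ∏ j ∈ Finset.range n, ((j : ℝ) - α) ≠ 0 := by
    rw [Finset.prod_ne_zero_iff]
    intro j _ h
    exact hα j (by linarith)
  field_simp
  ring

theorem gamma_pos : 0 < Real.Gamma (-(3 / 2)) := by
  have h1 := Real.Gamma_add_one (s := -(3 / 2 : ℝ)) (by norm_num)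
  have h2 := Real.Gamma_add_one (s := -(1 / 2 : ℝ)) (by norm_num)
  have h3 : (-(3 / 2 : ℝ)) + 1 = -(1 / 2) := by norm_num
  have h4 : (-(1 / 2 : ℝ)) + 1 = 1 / 2 := by norm_num
  rw [h3] at h1
  rw [h4] at h2
  have h5 : 0 < Real.Gamma (1 / 2) := Real.Gamma_pos_of_pos (by norm_num)
  rw [h2, h1] at h5
  linarith

end K5T
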