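import Pool.Agent.Lib.K5T.Ser
import Pool.Agent.Lib.K5T.Loc

/-!
# K5T.Crit: first facts on the data

Let `β := fr b`.
1. `a0_eq`: `fr b x0 = a0`: for real `s → x0`, `s < x0`: `fn b s = h (sq (s / x0)) → h 0 = a0` (`T3.exp` at `Z = 0`; `sq_tendsto`) and `fn b s → fn b x0` (`continuousOn_fn`), `fn_ofReal`.
2. `crit`: for `0 ≤ s < x0` and `s ≤ s' < x0`: termwise `n s^(n-1) (x0 - s') ≤ n s'^(n-1) (x0 - s') ≤ x0^n - s'^n`, so `(∑ n b n s^(n-1)) ≤ (β(x0) - β(s')) / (x0 - s')`. By `loc`, `T3.exp`: with `Z = sq (s'/x0)`, `Z^2 = 1 - s'/x0 = (x0 - s')/x0`, `Z` real and positive,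
   `β(s') = a0 + a2 Z^2 + O(Z^3)`, so the quotient is `(-a2 Z^2 + O(Z^3)) / (x0 Z^2) → -a2 / x0` for `s' → x0`. Hence `∑ n b n s^(n-1) ≤ -a2/x0`, and `∑ n b n s^n ≤ (s / x0) (-a2) < 1` (if `-a2 ≤ 0` the sum is `≤ 0`; otherwise it is at most `-a2 < 1`). To avoid `s^(n-1)` multiply by `s`.
3. `psi`: for real `0 ≤ y1 < y2 ≤ x0`: `y1 exp(-β(y1)) < y2 exp(-β(y2))`: it is enough to show `β(y2) - β(y1) < log(y2/y1)` for `0 < y1`. `ψ(y) = y exp(-β(y))` has on `(0, x0)` the derivative `exp(-β(y)) (1 - ∑ n b n y^n) > 0` (2) and is continuous on `[0, x0]`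
   (`strictMonoOn_of_deriv_pos`).
4. `r_lim`: `fr r rho = x0`: `ψ(fr r rho) = rho` by `r_eq` (`R = z exp(β(R))` so `R exp(-β(R)) = z`), `ψ(x0) = rho` (`rho_eq`), `fr r rho ≤ x0`, 3.
-/

namespace K5T

open Filter Topology Metric Asymptotics

namespace CritAux

theorem pow_lower {x y : ℝ} (hy : 0 ≤ y) (hxy : y ≤ x) (n : ℕ) :
    ((n : ℝ) + 1) * y ^ n * (x - y) ≤ x ^ (n + 1) - y ^ (n + 1) := by
  induction n with
  | zero => simp
  | succ n ih =>
    have h1 : x * (((n : ℝ) + 1) * y ^ n * (x - y)) ≤ x * (x ^ (n + 1) - y ^ (n + 1)) :=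
      mul_le_mul_of_nonneg_left ih (hy.trans hxy)
    have h2 : y * (((n : ℝ) + 1) * y ^ n * (x - y)) ≤ x * (((n : ℝ) + 1) * y ^ n * (x - y)) :=
      mul_le_mul_of_nonneg_right hxy (mul_nonneg (by positivity) (sub_nonneg.2 hxy))
    have h3 : x ^ (n + 1 + 1) - y ^ (n + 1 + 1) =
        x * (x ^ (n + 1) - y ^ (n + 1)) + y ^ (n + 1) * (x - y) := by ring
    rw [h3]
    push_cast
    have h4 : ((n : ℝ) + 1 + 1) * y ^ (n + 1) * (x - y) =
        y * (((n : ℝ) + 1) * y ^ n * (x - y)) + y ^ (n + 1) * (x - y) := by ring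
    rw [h4]
    linarith

theorem pow_upper {x y : ℝ} (hy : 0 ≤ y) (hxy : y ≤ x) (n : ℕ) :
    x ^ (n + 1) - y ^ (n + 1) ≤ ((n : ℝ) + 1) * x ^ n * (x - y) := by
  induction n with
  | zero => simp
  | succ n ih =>
    have hx : 0 ≤ x := hy.trans hxy
    have h1 : y * (x ^ (n + 1) - y ^ (n + 1)) ≤ x * (x ^ (n + 1) - y ^ (n + 1)) :=
      mul_le_mul_of_nonneg_right hxy (sub_nonneg.2 (pow_le_pow_left₀ hy hxy _))
    have h2 : x * (x ^ (n + 1) - y ^ (n + 1)) ≤ x * (((n : ℝ) + 1) * x ^ n * (x - y)) :=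
      mul_le_mul_of_nonneg_left ih hx
    have h3 : x ^ (n + 1 + 1) - y ^ (n + 1 + 1) =
        y * (x ^ (n + 1) - y ^ (n + 1)) + x ^ (n + 1) * (x - y) := by ring
    rw [h3]
    push_cast
    have h4 : ((n : ℝ) + 1 + 1) * x ^ (n + 1) * (x - y) =
        x * (((n : ℝ) + 1) * x ^ n * (x - y)) + x ^ (n + 1) * (x - y) := by ring
    rw [h4]
    linarith

theorem cast_tendsto {x0 : ℝ} (h0 : 0 < x0) :
    Tendsto (fun s : ℝ => (s : ℂ)) (𝓝[<] x0) (𝓝[ball (0 : ℂ) x0] (x0 : ℂ)) := by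
  refine tendsto_nhdsWithin_iff.2 ⟨?_, ?_⟩
  · exact (Complex.continuous_ofReal.tendsto x0).mono_left nhdsWithin_le_nhds
  · have h1 : ∀ᶠ s : ℝ in 𝓝[<] x0, 0 < s := by
      have : ∀ᶠ s : ℝ in 𝓝 x0, 0 < s := lt_mem_nhds h0
      exact this.filter_mono nhdsWithin_le_nhds
    have h2 : ∀ᶠ s : ℝ in 𝓝[<] x0, s < x0 := eventually_mem_nhdsWithin
    filter_upwards [h1, h2] with s hs hs2
    rw [mem_ball, dist_zero_right, Complex.norm_real, Real.norm_eq_abs, abs_of_pos hs]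
    exact hs2

theorem z_tendsto {x0 : ℝ} (h0 : 0 < x0) :
    Tendsto (fun s : ℝ => sq ((s : ℂ) / x0)) (𝓝[<] x0) (𝓝 0) := by
  refine sq_tendsto.comp ?_
  have h1 : Tendsto (fun s : ℝ => (s : ℂ) / (x0 : ℂ)) (𝓝 x0) (𝓝 ((x0 : ℂ) / x0)) :=
    (Complex.continuous_ofReal.div_const _).tendsto x0
  rw [div_self (by exact_mod_cast h0.ne')] at h1
  exact h1.mono_left nhdsWithin_le_nhds

theorem h_little {h : ℂ → ℂ} {a0 a2 a3 : ℂ} (hh : T3 h a0 a2 a3) :
    (fun Z => h Z - (a0 + a2 * Z ^ 2)) =o[𝓝 0] (fun Z : ℂ => Z ^ 2) := by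
  have h1 : (fun Z : ℂ => Z ^ 4) =o[𝓝 0] (fun Z : ℂ => Z ^ 2) :=
    isLittleO_pow_pow (by norm_num)
  have h2 : (fun Z : ℂ => a3 * Z ^ 3) =o[𝓝 0] (fun Z : ℂ => Z ^ 2) :=
    (isLittleO_pow_pow (by norm_num)).const_mul_left a3
  have h3 := (hh.exp.trans_isLittleO h1).add h2
  refine h3.congr_left fun Z => ?_
  ring

theorem h_tendsto {h : ℂ → ℂ} {a0 a2 a3 : ℂ} (hh : T3 h a0 a2 a3) :
    Tendsto h (𝓝 0) (𝓝 a0) := by
  have h1 := h_little hh
  have h2 : Tendsto (fun Z : ℂ => Z ^ 2) (𝓝 0) (𝓝 0) := by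
    have : Continuous (fun Z : ℂ => Z ^ 2) := continuous_pow 2
    simpa using this.tendsto 0
  have h3 : Tendsto (fun Z => h Z - (a0 + a2 * Z ^ 2)) (𝓝 0) (𝓝 0) :=
    h1.trans_tendsto h2
  have h4 : Tendsto (fun Z : ℂ => a0 + a2 * Z ^ 2) (𝓝 0) (𝓝 a0) := by
    have : Continuous (fun Z : ℂ => a0 + a2 * Z ^ 2) := by fun_prop
    simpa using this.tendsto 0
  have h5 := h3.add h4
  simp only [sub_add_cancel, zero_add] at h5
  exact h5

end CritAux

namespace Data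

variable (S : Data)

theorem critAux_loc : ∀ᶠ s : ℝ in 𝓝[<] S.x0, (fr S.b s : ℂ) = S.h (sq ((s : ℂ) / S.x0)) := by
  have h1 := (CritAux.cast_tendsto S.x0_pos).eventually S.loc
  filter_upwards [h1] with s hs
  rw [← fn_ofReal]
  exact hs

theorem critAux_cont : Tendsto (fr S.b) (𝓝[<] S.x0) (𝓝 (fr S.b S.x0)) := by
  have h1 := continuousOn_fr S.b_nonneg S.b_sum S.x0 (Set.right_mem_Icc.2 S.x0_pos.le)
  refine h1.mono_left ?_
  rw [← nhdsWithin_Ico_eq_nhdsLT S.x0_pos]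
  exact nhdsWithin_mono _ Set.Ico_subset_Icc_self

theorem a0_eq : fr S.b S.x0 = S.a0 := by
  have h1 : Tendsto (fun s : ℝ => (fr S.b s : ℂ)) (𝓝[<] S.x0) (𝓝 (fr S.b S.x0 : ℂ)) :=
    (Complex.continuous_ofReal.tendsto _).comp S.critAux_cont
  have h2 : Tendsto (fun s : ℝ => S.h (sq ((s : ℂ) / S.x0))) (𝓝[<] S.x0) (𝓝 (S.a0 : ℂ)) :=
    (CritAux.h_tendsto S.t3).comp (CritAux.z_tendsto S.x0_pos)
  have h3 : Tendsto (fun s : ℝ => (fr S.b s : ℂ)) (𝓝[<] S.x0) (𝓝 (S.a0 : ℂ)) :=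
    h2.congr' (S.critAux_loc.mono fun s hs => hs.symm)
  exact_mod_cast tendsto_nhds_unique h1 h3

theorem critAux_little : (fun s : ℝ => fr S.b s - (S.a0 + S.a2 * (1 - s / S.x0))) =o[𝓝[<] S.x0]
    (fun s : ℝ => 1 - s / S.x0) := by
  have h1 := (CritAux.h_little S.t3).comp_tendsto (CritAux.z_tendsto S.x0_pos)
  have h2 : (fun s : ℝ => ((fr S.b s - (S.a0 + S.a2 * (1 - s / S.x0)) : ℝ) : ℂ))
      =o[𝓝[<] S.x0] (fun s : ℝ => ((1 - s / S.x0 : ℝ) : ℂ)) := by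
    refine h1.congr' ?_ ?_
    · filter_upwards [S.critAux_loc] with s hs
      simp only [Function.comp_apply, sq_sq]
      rw [← hs]
      push_cast
      ring
    · filter_upwards with s
      simp only [Function.comp_apply, sq_sq]
      push_cast
      ring
  rw [← isLittleO_norm_norm] at h2 ⊢
  simpa only [Complex.norm_real] using h2

theorem critAux_le {s : ℝ} (hs : 0 ≤ s) (hsx : s < S.x0) :
    ∑' n : ℕ, (n : ℝ) * S.b n * s ^ n ≤ s / S.x0 * ((1 - S.a2) / 2) := by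
  have hk := S.kap
  have hx0 := S.x0_pos
  have h1 := S.critAux_little.def (c := (1 + S.a2) / 2) (by linarith)
  have h2 : ∀ᶠ s' : ℝ in 𝓝[<] S.x0, s < s' := by
    have : ∀ᶠ s' : ℝ in 𝓝 S.x0, s < s' := lt_mem_nhds hsx
    exact this.filter_mono nhdsWithin_le_nhds
  have h3 : ∀ᶠ s' : ℝ in 𝓝[<] S.x0, s' < S.x0 := eventually_mem_nhdsWithin
  obtain ⟨s', h1, h2, h3⟩ := (h1.and (h2.and h3)).exists
  have hpos : 0 < 1 - s' / S.x0 := by
    rw [sub_pos, div_lt_one hx0]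
    exact h3
  rw [Real.norm_eq_abs, Real.norm_eq_abs, abs_of_pos hpos, ← S.a0_eq] at h1
  have h4 := (abs_le.1 h1).1
  -- `T (x0 - s') ≤ s (β x0 - β s')`
  have hsum := summable_deriv S.b_nonneg S.b_sum hs hsx
  have hsb := summable_fr S.b_nonneg S.b_sum (hs.trans h2.le) h3.le
  have h5 : (∑' n : ℕ, (n : ℝ) * S.b n * s ^ n) * (S.x0 - s') ≤
      s * (fr S.b S.x0 - fr S.b s') := by
    unfold fr
    rw [← Summable.tsum_sub S.b_sum hsb, ← tsum_mul_left, ← tsum_mul_right]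
    refine (hsum.mul_right _).tsum_le_tsum (fun n => ?_) ((S.b_sum.sub hsb).mul_left s)
    rcases n with _ | n
    · simp
    · have e1 := CritAux.pow_lower (hs.trans h2.le) h3.le n
      have e2 : s ^ n ≤ s' ^ n := pow_le_pow_left₀ hs h2.le n
      have e3 : ((n : ℝ) + 1) * s ^ n * (S.x0 - s') ≤ ((n : ℝ) + 1) * s' ^ n * (S.x0 - s') :=
        mul_le_mul_of_nonneg_right (mul_le_mul_of_nonneg_left e2 (by positivity))
          (by linarith)
      have e4 := mul_le_mul_of_nonneg_left (e3.trans e1)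
        (mul_nonneg (S.b_nonneg (n + 1)) hs)
      push_cast
      calc ((n : ℝ) + 1) * S.b (n + 1) * s ^ (n + 1) * (S.x0 - s')
          = S.b (n + 1) * s * (((n : ℝ) + 1) * s ^ n * (S.x0 - s')) := by ring
        _ ≤ S.b (n + 1) * s * (S.x0 ^ (n + 1) - s' ^ (n + 1)) := e4
        _ = s * (S.b (n + 1) * S.x0 ^ (n + 1) - S.b (n + 1) * s' ^ (n + 1)) := by ring
  have h6 : fr S.b S.x0 - fr S.b s' ≤ (1 - S.a2) / 2 * (1 - s' / S.x0) := by
    have : (1 - S.a2) / 2 * (1 - s' / S.x0) =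
        (1 + S.a2) / 2 * (1 - s' / S.x0) - S.a2 * (1 - s' / S.x0) := by ring
    rw [this]
    linarith
  have h7 : (∑' n : ℕ, (n : ℝ) * S.b n * s ^ n) * (S.x0 - s') ≤
      s / S.x0 * ((1 - S.a2) / 2) * (S.x0 - s') := by
    refine h5.trans ((mul_le_mul_of_nonneg_left h6 hs).trans (le_of_eq ?_))
    field_simp
  exact le_of_mul_le_mul_right h7 (by linarith)

theorem crit {s : ℝ} (hs : 0 ≤ s) (hsx : s < S.x0) : ∑' n : ℕ, (n : ℝ) * S.b n * s ^ n < 1 := by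
  refine (S.critAux_le hs hsx).trans_lt ?_
  have hk := S.kap
  have hx0 := S.x0_pos
  have h1 : 0 ≤ s / S.x0 := div_nonneg hs hx0.le
  have h2 : s / S.x0 ≤ 1 := (div_le_one hx0).2 hsx.le
  by_cases hq : 0 ≤ (1 - S.a2) / 2
  · have := mul_le_mul_of_nonneg_right h2 hq
    linarith
  · push Not at hq
    have := mul_nonneg h1 (by linarith : 0 ≤ -((1 - S.a2) / 2))
    linarith

theorem critAux_psi {y1 y2 : ℝ} (h1 : 0 ≤ y1) (h12 : y1 < y2) (h2 : y2 < S.x0) :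
    y1 * Real.exp (-fr S.b y1) < y2 * Real.exp (-fr S.b y2) := by
  have hy2 : 0 < y2 := h1.trans_lt h12
  rcases h1.eq_or_lt with h0 | h0
  · rw [← h0, zero_mul]
    exact mul_pos hy2 (Real.exp_pos _)
  have hsum := summable_deriv S.b_nonneg S.b_sum hy2.le h2
  have hs1 := summable_fr S.b_nonneg S.b_sum h1 (h12.le.trans h2.le)
  have hs2 := summable_fr S.b_nonneg S.b_sum hy2.le h2.le
  have hc := S.crit hy2.le h2
  have h5 : y2 * (fr S.b y2 - fr S.b y1) ≤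
      (∑' n : ℕ, (n : ℝ) * S.b n * y2 ^ n) * (y2 - y1) := by
    unfold fr
    rw [← Summable.tsum_sub hs2 hs1, ← tsum_mul_left, ← tsum_mul_right]
    refine ((hs2.sub hs1).mul_left y2).tsum_le_tsum (fun n => ?_) (hsum.mul_right _)
    rcases n with _ | n
    · simp
    · have e1 := CritAux.pow_upper h1 h12.le n
      have e4 := mul_le_mul_of_nonneg_left e1 (mul_nonneg (S.b_nonneg (n + 1)) hy2.le)
      push_cast
      calc y2 * (S.b (n + 1) * y2 ^ (n + 1) - S.b (n + 1) * y1 ^ (n + 1))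
          = S.b (n + 1) * y2 * (y2 ^ (n + 1) - y1 ^ (n + 1)) := by ring
        _ ≤ S.b (n + 1) * y2 * (((n : ℝ) + 1) * y2 ^ n * (y2 - y1)) := e4
        _ = ((n : ℝ) + 1) * S.b (n + 1) * y2 ^ (n + 1) * (y2 - y1) := by ring
  have h6 : (∑' n : ℕ, (n : ℝ) * S.b n * y2 ^ n) * (y2 - y1) < y2 - y1 := by
    have := mul_lt_mul_of_pos_right hc (sub_pos.2 h12)
    rwa [one_mul] at this
  have h7 : fr S.b y2 - fr S.b y1 < 1 - y1 / y2 := by
    have h8 : y2 * (fr S.b y2 - fr S.b y1) < y2 * (1 - y1 / y2) := by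
      have : y2 * (1 - y1 / y2) = y2 - y1 := by field_simp
      rw [this]
      exact h5.trans_lt h6
    exact lt_of_mul_lt_mul_left h8 hy2.le
  have h9 : 1 - y1 / y2 ≤ Real.log y2 - Real.log y1 := by
    have h10 := Real.log_le_sub_one_of_pos (div_pos h0 hy2)
    rw [Real.log_div h0.ne' hy2.ne'] at h10
    linarith
  have e1 : y1 * Real.exp (-fr S.b y1) = Real.exp (Real.log y1 - fr S.b y1) := by
    rw [sub_eq_add_neg, Real.exp_add, Real.exp_log h0]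
  have e2 : y2 * Real.exp (-fr S.b y2) = Real.exp (Real.log y2 - fr S.b y2) := by
    rw [sub_eq_add_neg, Real.exp_add, Real.exp_log hy2]
  rw [e1, e2, Real.exp_lt_exp]
  linarith

theorem psi_lt {y1 y2 : ℝ} (h1 : 0 ≤ y1) (h12 : y1 < y2) (h2 : y2 ≤ S.x0) :
    y1 * Real.exp (-fr S.b y1) < y2 * Real.exp (-fr S.b y2) := by
  rcases h2.lt_or_eq with h2 | h2
  · exact S.critAux_psi h1 h12 h2
  subst h2
  have hm1 : y1 < (y1 + S.x0) / 2 := by linarith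
  have hm2 : (y1 + S.x0) / 2 < S.x0 := by linarith
  refine (S.critAux_psi h1 hm1 hm2).trans_le ?_
  have hlim : Tendsto (fun s : ℝ => s * Real.exp (-fr S.b s)) (𝓝[<] S.x0)
      (𝓝 (S.x0 * Real.exp (-fr S.b S.x0))) := by
    refine Tendsto.mul (tendsto_id.mono_left nhdsWithin_le_nhds) ?_
    exact (Real.continuous_exp.tendsto _).comp S.critAux_cont.neg
  refine ge_of_tendsto hlim ?_
  have e1 : ∀ᶠ s : ℝ in 𝓝[<] S.x0, (y1 + S.x0) / 2 < s := by
    have : ∀ᶠ s : ℝ in 𝓝 S.x0, (y1 + S.x0) / 2 < s := lt_mem_nhds hm2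
    exact this.filter_mono nhdsWithin_le_nhds
  have e2 : ∀ᶠ s : ℝ in 𝓝[<] S.x0, s < S.x0 := eventually_mem_nhdsWithin
  filter_upwards [e1, e2] with s hs1 hs2
  exact (S.critAux_psi (by linarith) hs1 hs2).le

theorem r_lim : fr S.r S.rho = S.x0 := by
  have h1 := S.r_eq S.rho S.rho_pos.le le_rfl
  have h0 : 0 ≤ fr S.r S.rho := fr_nonneg S.r_nonneg S.rho_pos.le
  rcases S.r_le.lt_or_eq with hlt | heq
  · exfalso
    have h2 := S.psi_lt h0 hlt le_rfl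
    rw [← S.rho_eq] at h2
    have h3 : fr S.r S.rho * Real.exp (-fr S.b (fr S.r S.rho)) = S.rho := by
      refine (congrArg (fun y => y * Real.exp (-fr S.b (fr S.r S.rho))) h1).trans ?_
      rw [mul_assoc, ← Real.exp_add, add_neg_cancel, Real.exp_zero, mul_one]
    linarith
  · exact heq

end Data

end K5T
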