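import Pool.Agent.Lib.K5T.Bin
import Pool.Agent.Lib.K5T.Loc
import Pool.Agent.Lib.K5T.Bd

/-!
# K5T.Dar: Darboux's theorem for a singularity of the type `(1 - z)^(3/2)`

Let `F z := f z - a3 * (1 - z)^(3/2) - a5 * (1 - z)^(5/2)` with `a5` from `loc_bound`. For `‖z‖ < 1`: `(1 - z)^(3/2) = sq z ^ 3` and `(1 - z)^(5/2) = sq z ^ 5` (`Complex.cpow_nat_mul` or `sq` unfolded, `1 - z ≠ 0`), `F z = ∑ c n z^n`,
`c n = a n - a3 * bin (3/2) n - a5 * bin (5/2) n` (`bin_hasSum`). `F` is differentiable on the disc (a sum of a power series; `HasFPowerSeriesOnBall` or `hasSum` of a power series). Near `1` in the disc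
`F z = h (sq z) - a3 sq z ^ 3 - a5 sq z ^ 5`, an equality on an open set near every such point, so `loc_bound` bounds `iteratedDeriv 3 F` (`ball 0 1 ⊆ {w | w.re < 1}`). At `z ≠ 1` on the circle: `Ext`, since `sq` is analytic at `z` (`1 - z` is in the slit plane:
`re z < 1` for `‖z‖ = 1`, `z ≠ 1`). `bd_disc`, `cauchy_coeff`: `‖c n‖ * (n - 2) (n - 1) n ≤ M` for `n ≥ 3`, so `c n * n^(5/2) → 0`. `bin_tendsto` for `α = 3/2`: `bin (3/2) n * n^(5/2) → 1 / Γ(-3/2)`, for `α = 5/2`: `bin (5/2) n * n^(7/2)` converges, so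
`bin (5/2) n * n^(5/2) → 0`. Hence `a n * n^(5/2) → a3 / Γ(-3/2)` in `ℂ`; take real parts (`Complex.ofReal` of a real limit: `Complex.continuous_re`).
-/

namespace K5T

open Filter Topology Metric Asymptotics

namespace DarAux

lemma re_lt_one {z : ℂ} (hz : ‖z‖ < 1) : z.re < 1 :=
  lt_of_le_of_lt ((le_abs_self _).trans (Complex.abs_re_le_norm z)) hz

lemma re_lt_one' {z : ℂ} (hz : ‖z‖ = 1) (h1 : z ≠ 1) : z.re < 1 := by
  have h2 : z.re ≤ 1 := by
    rw [← hz]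
    exact (le_abs_self _).trans (Complex.abs_re_le_norm z)
  refine lt_of_le_of_ne h2 fun h3 => h1 ?_
  have h4 : z.re ^ 2 + z.im ^ 2 = 1 := by
    have h5 := Complex.sq_norm z
    rw [hz, Complex.normSq_apply] at h5
    nlinarith
  have h6 : z.im = 0 := by
    rw [h3] at h4
    nlinarith
  exact Complex.ext (by simpa using h3) (by simpa using h6)

lemma sq_pow_three (z : ℂ) : sq z ^ 3 = (1 - z) ^ (((3 / 2 : ℝ)) : ℂ) := by
  unfold sq
  rw [← Complex.cpow_nat_mul]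
  congr 1
  push_cast
  norm_num

lemma sq_pow_five (z : ℂ) : sq z ^ 5 = (1 - z) ^ (((5 / 2 : ℝ)) : ℂ) := by
  unfold sq
  rw [← Complex.cpow_nat_mul]
  congr 1
  push_cast
  norm_num

lemma sq_an {z : ℂ} (hz : z.re < 1) : AnalyticAt ℂ sq z := by
  unfold sq
  refine AnalyticAt.cpow (analyticAt_const.sub analyticAt_id) analyticAt_const ?_
  rw [Complex.mem_slitPlane_iff]
  left
  simpa using hz

lemma diffOn {c : ℕ → ℂ} {F : ℂ → ℂ} (hF : ∀ z : ℂ, ‖z‖ < 1 → HasSum (fun n : ℕ => c n * z ^ n) (F z)) :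
    DifferentiableOn ℂ F (ball 0 1) := by
  intro z hz
  rw [mem_ball_zero_iff] at hz
  obtain ⟨r, hr1, hr2⟩ := exists_between hz
  have hr0 : 0 ≤ r := (norm_nonneg z).trans hr1.le
  have hu : Summable (fun n : ℕ => ‖c n‖ * r ^ n) := by
    have h1 := (hF (r : ℂ) (by rwa [Complex.norm_real, Real.norm_of_nonneg hr0])).summable.norm
    refine h1.congr fun n => ?_
    rw [norm_mul, norm_pow, Complex.norm_real, Real.norm_of_nonneg hr0]
  have h2 : DifferentiableOn ℂ (fun w => ∑' n : ℕ, c n * w ^ n) (ball 0 r) := by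
    refine Complex.differentiableOn_tsum_of_summable_norm hu (fun n => ?_) isOpen_ball (fun n w hw => ?_)
    · exact (differentiable_const _).mul (differentiable_id.pow n) |>.differentiableOn
    · rw [mem_ball_zero_iff] at hw
      rw [norm_mul, norm_pow]
      exact mul_le_mul_of_nonneg_left (pow_le_pow_left₀ (norm_nonneg _) hw.le n) (norm_nonneg _)
  have hzr : z ∈ ball (0 : ℂ) r := by rwa [mem_ball_zero_iff]
  have h3 : DifferentiableAt ℂ (fun w => ∑' n : ℕ, c n * w ^ n) z :=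
    (h2 z hzr).differentiableAt (isOpen_ball.mem_nhds hzr)
  refine (h3.congr_of_eventuallyEq ?_).differentiableWithinAt
  filter_upwards [isOpen_ball.mem_nhds hzr] with w hw
  rw [mem_ball_zero_iff] at hw
  exact (hF w (hw.trans hr2)).tsum_eq.symm

lemma coeff_tendsto {c : ℕ → ℂ} {M : ℝ}
    (h : ∀ k : ℕ, ‖c (k + 3)‖ * (((k : ℝ) + 1) * (k + 2) * (k + 3)) ≤ M) :
    Tendsto (fun n : ℕ => c n * (((n : ℝ) ^ (5 / 2 : ℝ) : ℝ) : ℂ)) atTop (𝓝 0) := by
  rw [tendsto_zero_iff_norm_tendsto_zero]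
  have hM : 0 ≤ M := le_trans (by positivity) (h 0)
  have h1 : Tendsto (fun n : ℕ => 9 / 2 * M * (n : ℝ) ^ (-(1 / 2 : ℝ))) atTop (𝓝 0) := by
    have h2 := (tendsto_rpow_neg_atTop (y := 1 / 2) (by norm_num)).comp (tendsto_natCast_atTop_atTop (R := ℝ))
    have h3 := h2.const_mul (9 / 2 * M)
    rw [mul_zero] at h3
    exact h3
  refine squeeze_zero' (Eventually.of_forall fun n => norm_nonneg _) ?_ h1
  filter_upwards [eventually_ge_atTop 3] with n hn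
  obtain ⟨k, rfl⟩ : ∃ k, n = k + 3 := ⟨n - 3, by omega⟩
  have hk0 : (0 : ℝ) ≤ (k : ℝ) := Nat.cast_nonneg k
  set x : ℝ := ((k + 3 : ℕ) : ℝ) with hx
  have hx3 : x = (k : ℝ) + 3 := by
    rw [hx]
    push_cast
    ring
  have hx0 : 0 < x := by
    rw [hx3]
    linarith
  rw [norm_mul, Complex.norm_real, Real.norm_of_nonneg (Real.rpow_nonneg hx0.le _)]
  have h4 : 2 / 9 * x ^ 3 ≤ ((k : ℝ) + 1) * (k + 2) * (k + 3) := by
    rw [hx3]
    nlinarith [mul_nonneg hk0 hk0, mul_nonneg (mul_nonneg hk0 hk0) hk0]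
  have h5 : ‖c (k + 3)‖ * (2 / 9 * x ^ 3) ≤ M :=
    (mul_le_mul_of_nonneg_left h4 (norm_nonneg _)).trans (h k)
  have h6 : x ^ (5 / 2 : ℝ) = x ^ 3 * x ^ (-(1 / 2 : ℝ)) := by
    rw [← Real.rpow_natCast x 3, ← Real.rpow_add hx0]
    norm_num
  rw [h6]
  have h7 : 0 ≤ x ^ (-(1 / 2 : ℝ)) := Real.rpow_nonneg hx0.le _
  nlinarith [mul_le_mul_of_nonneg_right h5 h7]

lemma bin52 : Tendsto (fun n : ℕ => bin (5 / 2) n * (n : ℝ) ^ (5 / 2 : ℝ)) atTop (𝓝 0) := by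
  have h1 : Tendsto (fun n : ℕ => bin (5 / 2) n * (n : ℝ) ^ ((5 / 2 : ℝ) + 1)) atTop
      (𝓝 (1 / Real.Gamma (-(5 / 2)))) := bin_tendsto (fun m h => by
    have h2 : (5 : ℝ) = ((2 * m : ℕ) : ℝ) := by
      push_cast
      linarith
    have h3 : (5 : ℕ) = 2 * m := by exact_mod_cast h2
    omega)
  have h2 : Tendsto (fun n : ℕ => ((n : ℝ))⁻¹) atTop (𝓝 0) := tendsto_inv_atTop_nhds_zero_nat
  have h3 := h1.mul h2
  rw [mul_zero] at h3
  refine h3.congr' ?_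
  filter_upwards [eventually_gt_atTop 0] with n hn
  have hn' : (0 : ℝ) < (n : ℝ) := by exact_mod_cast hn
  rw [Real.rpow_add hn', Real.rpow_one]
  field_simp

lemma bin32 : Tendsto (fun n : ℕ => bin (3 / 2) n * (n : ℝ) ^ (5 / 2 : ℝ)) atTop
    (𝓝 (1 / Real.Gamma (-(3 / 2)))) := by
  have h1 : Tendsto (fun n : ℕ => bin (3 / 2) n * (n : ℝ) ^ ((3 / 2 : ℝ) + 1)) atTop
      (𝓝 (1 / Real.Gamma (-(3 / 2)))) := bin_tendsto (fun m h => by
    have h2 : (3 : ℝ) = ((2 * m : ℕ) : ℝ) := by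
      push_cast
      linarith
    have h3 : (3 : ℕ) = 2 * m := by exact_mod_cast h2
    omega)
  rwa [show ((3 / 2 : ℝ) + 1) = 5 / 2 by norm_num] at h1

end DarAux

open DarAux in
theorem darboux {a : ℕ → ℝ} {f h : ℂ → ℂ} {a0 a2 a3 : ℝ}
    (hf : ∀ z : ℂ, ‖z‖ < 1 → HasSum (fun n : ℕ => (a n : ℂ) * z ^ n) (f z))
    (hc : ∀ z : ℂ, ‖z‖ = 1 → z ≠ 1 → Ext 1 f z)
    (hh : T3 h a0 a2 a3)
    (hl : ∀ᶠ w in 𝓝[ball (0 : ℂ) 1] (1 : ℂ), f w = h (sq w)) :
    Tendsto (fun n : ℕ => a n * (n : ℝ) ^ (5 / 2 : ℝ)) atTop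
      (𝓝 (a3 / Real.Gamma (-(3 / 2)))) := by
  obtain ⟨a5, M0, hM0⟩ := loc_bound hh
  set F : ℂ → ℂ := fun w => f w - a3 * sq w ^ 3 - a5 * sq w ^ 5 with hFdef
  set c : ℕ → ℂ := fun n => (a n : ℂ) - a3 * (bin (3 / 2) n : ℂ) - a5 * (bin (5 / 2) n : ℂ) with hcdef
  have hF : ∀ z : ℂ, ‖z‖ < 1 → HasSum (fun n : ℕ => c n * z ^ n) (F z) := by
    intro z hz
    have h1 := ((hf z hz).sub ((bin_hasSum (3 / 2) hz).mul_left (a3 : ℂ))).sub
      ((bin_hasSum (5 / 2) hz).mul_left a5)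
    rw [hFdef]
    dsimp only
    rw [sq_pow_three, sq_pow_five]
    refine h1.congr_fun ?_
    intro n
    rw [hcdef]
    dsimp only
    ring
  have hball : ball (0 : ℂ) 1 ⊆ {w : ℂ | w.re < 1} := by
    intro w hw
    rw [mem_ball_zero_iff] at hw
    exact re_lt_one hw
  have h1 : ∃ M : ℝ, ∀ᶠ w in 𝓝[ball (0 : ℂ) 1] 1, ‖iteratedDeriv 3 F w‖ ≤ M := by
    refine ⟨M0, ?_⟩
    have h2 := hM0.filter_mono (nhdsWithin_mono 1 hball)
    have h3 := eventually_eventually_nhdsWithin.mpr hl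
    filter_upwards [h2, h3, self_mem_nhdsWithin] with w hw1 hw2 hw3
    rw [isOpen_ball.nhdsWithin_eq hw3] at hw2
    have h4 : F =ᶠ[𝓝 w] fun w => h (sq w) - a3 * sq w ^ 3 - a5 * sq w ^ 5 := by
      filter_upwards [hw2] with v hv
      rw [hFdef]
      dsimp only
      rw [hv]
    rw [h4.iteratedDeriv_eq]
    exact hw1
  have hcF : ∀ z : ℂ, ‖z‖ = 1 → z ≠ 1 → Ext 1 F z := by
    intro z hz hz1
    obtain ⟨g, hg1, hg2⟩ := hc z hz hz1
    have hsq := sq_an (re_lt_one' hz hz1)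
    refine ⟨fun w => g w - a3 * sq w ^ 3 - a5 * sq w ^ 5,
      (hg1.sub (analyticAt_const.mul (hsq.pow 3))).sub (analyticAt_const.mul (hsq.pow 5)), ?_⟩
    filter_upwards [hg2] with w hw
    rw [hFdef]
    dsimp only
    rw [hw]
  obtain ⟨M, hM⟩ := bd_disc (diffOn hF) h1 hcF
  have h5 := coeff_tendsto (cauchy_coeff hF hM)
  have h6 : Tendsto (fun n : ℕ => ((a n * (n : ℝ) ^ (5 / 2 : ℝ) : ℝ) : ℂ)) atTop
      (𝓝 ((a3 / Real.Gamma (-(3 / 2)) : ℝ) : ℂ)) := by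
    have h7 := (h5.add ((Complex.continuous_ofReal.tendsto _ |>.comp bin32).const_mul (a3 : ℂ))).add
      ((Complex.continuous_ofReal.tendsto _ |>.comp bin52).const_mul a5)
    have h8 : (0 : ℂ) + (a3 : ℂ) * ((1 / Real.Gamma (-(3 / 2)) : ℝ) : ℂ) + a5 * ((0 : ℝ) : ℂ) =
        ((a3 / Real.Gamma (-(3 / 2)) : ℝ) : ℂ) := by
      push_cast
      ring
    rw [h8] at h7
    refine h7.congr fun n => ?_
    rw [hcdef]
    simp only [Function.comp_apply]
    push_cast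
    ring
  have h9 := (Complex.continuous_re.tendsto _).comp h6
  rw [Complex.ofReal_re] at h9
  refine h9.congr fun n => ?_
  rw [Function.comp_apply, Complex.ofReal_re]

end K5T
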