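import Pool.Agent.Lib.K5T.Crit

/-!
# K5T.Id: the functional equation in the complex domain

`β := fn b`, `R := fn r`. For `‖z‖ ≤ rho`: `‖R z‖ ≤ fr r ‖z‖ ≤ fr r rho = x0` (`norm_fn_le`, `fr_mono`, `r_lim`), and `‖R z‖ < x0` if `‖z‖ < rho` (`fr_lt`).
On `ball 0 rho` both `R z` and `z * exp (β (R z))` are analytic (`analyticAt_fn`); they agree on the real numbers in `(0, rho)` (`r_eq`, `fn_ofReal`), which accumulate at `rho/2`, so on the ball
(`AnalyticOnNhd.eqOn_of_preconnected_of_frequently_eq`). On the closed ball by continuity (`continuousOn_fn`; `closure_ball`, `Set.EqOn.closure` or a limit `t z`, `t → 1`).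
-/

namespace K5T

open Filter Topology Metric Asymptotics

namespace Data

variable (S : Data)

theorem norm_R_le {z : ℂ} (hz : ‖z‖ ≤ S.rho) : ‖fn S.r z‖ ≤ S.x0 := by
  rw [← S.r_lim]
  exact (norm_fn_le S.r_nonneg S.r_sum hz).trans
    (fr_mono S.r_nonneg S.r_sum (norm_nonneg z) hz le_rfl)

theorem norm_R_lt {z : ℂ} (hz : ‖z‖ ≤ S.rho) (hne : z ≠ S.rho) : ‖fn S.r z‖ < S.x0 := by
  rw [← S.r_lim]
  exact norm_lt S.r_nonneg S.r_one S.r_two S.r_sum S.rho_pos hz hne

theorem IdAux.eq_real {x : ℝ} (h0 : 0 ≤ x) (hx : x ≤ S.rho) :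
    fn S.r x = x * Complex.exp (fn S.b (fn S.r x)) := by
  rw [fn_ofReal, fn_ofReal, ← Complex.ofReal_exp, ← Complex.ofReal_mul, ← S.r_eq x h0 hx]

theorem IdAux.ne_rho {z : ℂ} (hz : ‖z‖ < S.rho) : z ≠ S.rho := by
  rintro rfl
  rw [Complex.norm_real, Real.norm_eq_abs, abs_of_pos S.rho_pos] at hz
  exact lt_irrefl _ hz

theorem IdAux.eqOn_ball : Set.EqOn (fn S.r) (fun z => z * Complex.exp (fn S.b (fn S.r z)))
    (ball (0 : ℂ) S.rho) := by
  have hρ := S.rho_pos
  have hf : AnalyticOnNhd ℂ (fn S.r) (ball 0 S.rho) := by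
    intro z hz
    exact analyticAt_fn S.r_nonneg S.r_sum (mem_ball_zero_iff.mp hz)
  have hg : AnalyticOnNhd ℂ (fun z => z * Complex.exp (fn S.b (fn S.r z))) (ball 0 S.rho) := by
    intro z hz
    have hz' := mem_ball_zero_iff.mp hz
    have h1 : AnalyticAt ℂ (fn S.b) (fn S.r z) :=
      analyticAt_fn S.b_nonneg S.b_sum (S.norm_R_lt hz'.le (IdAux.ne_rho S hz'))
    exact analyticAt_id.mul (h1.comp (hf z hz)).cexp
  refine hf.eqOn_of_preconnected_of_frequently_eq hg (convex_ball 0 S.rho).isPreconnected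
    (z₀ := ((S.rho / 2 : ℝ) : ℂ)) ?_ ?_
  · rw [mem_ball_zero_iff, Complex.norm_real, Real.norm_eq_abs, abs_of_pos (by linarith)]
    linarith
  · have ht : Tendsto (fun x : ℝ => (x : ℂ)) (𝓝[≠] (S.rho / 2)) (𝓝[≠] ((S.rho / 2 : ℝ) : ℂ)) := by
      refine tendsto_nhdsWithin_iff.mpr ⟨?_, ?_⟩
      · exact (Complex.continuous_ofReal.tendsto _).mono_left nhdsWithin_le_nhds
      · filter_upwards [self_mem_nhdsWithin] with x hx
        intro h
        exact hx (Complex.ofReal_injective h)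
    refine ht.frequently (Eventually.frequently ?_)
    have h2 : Set.Ioo 0 S.rho ∈ 𝓝[≠] (S.rho / 2) :=
      mem_nhdsWithin_of_mem_nhds (Ioo_mem_nhds (by linarith) (by linarith))
    filter_upwards [h2] with x hx
    exact IdAux.eq_real S hx.1.le hx.2.le

theorem fun_eq {z : ℂ} (hz : ‖z‖ ≤ S.rho) :
    fn S.r z = z * Complex.exp (fn S.b (fn S.r z)) := by
  have hr : ContinuousOn (fn S.r) (closedBall 0 S.rho) := continuousOn_fn S.r_nonneg S.r_sum
  have hb : ContinuousOn (fn S.b) (closedBall 0 S.x0) := continuousOn_fn S.b_nonneg S.b_sum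
  have hg : ContinuousOn (fun z => z * Complex.exp (fn S.b (fn S.r z))) (closedBall 0 S.rho) := by
    refine continuousOn_id.mul (Complex.continuous_exp.comp_continuousOn (hb.comp hr ?_))
    intro w hw
    rw [mem_closedBall_zero_iff] at hw ⊢
    exact S.norm_R_le hw
  have h := (IdAux.eqOn_ball S).of_subset_closure hr hg ball_subset_closedBall (by
    rw [closure_ball (0 : ℂ) S.rho_pos.ne'])
  exact h (mem_closedBall_zero_iff.mpr hz)

end Data

end K5T
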